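import Mathlib

/-!
MP_a4f561_co, helper26's n^eps proof: the two inequalities of the harm lemma (helper53).
-/

namespace Pool.Agent.W_a4f561_h53

/-- Inequality (I). -/
theorem ineq_one {a b : ℝ} (ha : 0 ≤ a) (hb : 0 ≤ b) (h : b ≤ 1 / 1000 * ((a + b) / 2)) :
    (101 / 100 * Real.sqrt a + Real.sqrt b) / 2 ≤ Real.sqrt ((a + b) / 2) := by
  obtain ⟨x, hx, rfl⟩ : ∃ x : ℝ, 0 ≤ x ∧ a = x ^ 2 := ⟨Real.sqrt a, Real.sqrt_nonneg a, (Real.sq_sqrt ha).symm⟩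
  obtain ⟨y, hy, rfl⟩ : ∃ y : ℝ, 0 ≤ y ∧ b = y ^ 2 := ⟨Real.sqrt b, Real.sqrt_nonneg b, (Real.sq_sqrt hb).symm⟩
  rw [Real.sqrt_sq hx, Real.sqrt_sq hy]
  apply Real.le_sqrt_of_sq_le
  have h1 : y ≤ x / 40 := by
    by_contra hc
    push Not at hc
    nlinarith [mul_pos (show 0 < y by linarith [hx]) (show 0 < y by linarith [hx]), mul_self_nonneg x, mul_self_nonneg (x - 40 * y)]
  nlinarith [mul_nonneg hx (sub_nonneg.2 h1), mul_nonneg hy hx, sq_nonneg y]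

/-- Inequality (II). -/
theorem ineq_two {A R b : ℝ} (hA : 0 ≤ A) (hR : 0 ≤ R) (hb : 0 ≤ b)
    (h : b ≤ R / 2 + 1 / 1000 * (((A + R) / 2 + b) / 2)) :
    (101 / 100 * ((Real.sqrt A + Real.sqrt R) / 2) + Real.sqrt b) / 2 ≤ Real.sqrt (((A + R) / 2 + b) / 2) := by
  obtain ⟨p, hp, rfl⟩ : ∃ x : ℝ, 0 ≤ x ∧ A = x ^ 2 := ⟨Real.sqrt A, Real.sqrt_nonneg A, (Real.sq_sqrt hA).symm⟩
  obtain ⟨q, hq, rfl⟩ : ∃ x : ℝ, 0 ≤ x ∧ R = x ^ 2 := ⟨Real.sqrt R, Real.sqrt_nonneg R, (Real.sq_sqrt hR).symm⟩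
  obtain ⟨y, hy, rfl⟩ : ∃ y : ℝ, 0 ≤ y ∧ b = y ^ 2 := ⟨Real.sqrt b, Real.sqrt_nonneg b, (Real.sq_sqrt hb).symm⟩
  rw [Real.sqrt_sq hp, Real.sqrt_sq hq, Real.sqrt_sq hy]
  apply Real.le_sqrt_of_sq_le
  nlinarith [sq_nonneg (p - 0.3424 * q - 0.678 * y), sq_nonneg (q - 1.34 * y), sq_nonneg y, sq_nonneg q]

end Pool.Agent.W_a4f561_h53
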