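import Pool.Agent.W_a4f561_P73.PDef

/-!
MP_a4f561_co (polylog): leaving a set in another set, transfer between two choice functions, monotonicity. helper53.
-/

set_option autoImplicit false
set_option linter.unusedSectionVars false

namespace Pool.Agent.W_a4f561_Lv53

open Pool.Agent.W_a4f561_h26
open Pool.Agent.W_a4f561_P73

variable {V : Type} {G : Bars V}

theorem lv_iff {ρ : V → V} (hρ : Ch G ρ) {D E : Set V} {z : V} :
    LV G D E ρ z ↔ ∃ k, ρ^[k] z ∈ E ∧ ρ^[k] z ∉ D ∧ ∀ j, j < k → ρ^[j] z ∈ D := by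
  constructor
  · rintro ⟨e, he, heD, ⟨k, hk⟩, h⟩
    classical
    have hex : ∃ k, ρ^[k] z = e := ⟨k, hk⟩
    refine ⟨Nat.find hex, ?_, ?_, fun j hj => ?_⟩
    · rw [Nat.find_spec hex]
      exact he
    · rw [Nat.find_spec hex]
      exact heD
    · refine h _ ⟨j, rfl⟩ ?_
      have h1 : Orb ρ (ρ^[j] z) e := by
        refine ⟨Nat.find hex - j, ?_⟩
        rw [← Function.iterate_add_apply, Nat.sub_add_cancel hj.le]
        exact Nat.find_spec hex
      refine lt_of_le_of_ne (orb_t hρ h1) fun h2 => ?_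
      exact Nat.find_min hex hj (G.t_inj h2)
  · rintro ⟨k, h1, h2, h3⟩
    refine ⟨_, h1, h2, ⟨k, rfl⟩, ?_⟩
    rintro u ⟨j, rfl⟩ hu
    rcases Nat.lt_or_ge j k with h4 | h4
    · exact h3 j h4
    · exfalso
      have h5 : Orb ρ (ρ^[k] z) (ρ^[j] z) := by
        refine ⟨j - k, ?_⟩
        rw [← Function.iterate_add_apply, Nat.sub_add_cancel h4]
      have h6 := orb_t hρ h5
      omega

theorem lv_out {ρ : V → V} (hρ : Ch G ρ) {D E : Set V} {z : V} (hz : z ∉ D) : LV G D E ρ z ↔ z ∈ E := by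
  rw [lv_iff hρ]
  constructor
  · rintro ⟨k, h1, h2, h3⟩
    cases k with
    | zero => exact h1
    | succ k => exact absurd (h3 0 (Nat.succ_pos k)) hz
  · intro h
    exact ⟨0, h, hz, fun j hj => absurd hj (Nat.not_lt_zero j)⟩

theorem lv_in {ρ : V → V} (hρ : Ch G ρ) {D E : Set V} {z : V} (hz : z ∈ D) :
    LV G D E ρ z ↔ LV G D E ρ (ρ z) := by
  rw [lv_iff hρ, lv_iff hρ]
  constructor
  · rintro ⟨k, h1, h2, h3⟩
    cases k with
    | zero => exact absurd hz h2
    | succ k =>
      refine ⟨k, h1, h2, fun j hj => ?_⟩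
      exact h3 (j + 1) (Nat.succ_lt_succ hj)
  · rintro ⟨k, h1, h2, h3⟩
    refine ⟨k + 1, h1, h2, fun j hj => ?_⟩
    cases j with
    | zero => exact hz
    | succ j => exact h3 j (Nat.lt_of_succ_lt_succ hj)

/-- Induction along a route which leaves `D` in `E`. -/
theorem lv_ind {ρ : V → V} (hρ : Ch G ρ) {D E : Set V} {P : V → Prop}
    (h0 : ∀ e, e ∈ E → e ∉ D → P e) (h1 : ∀ u, u ∈ D → LV G D E ρ (ρ u) → P (ρ u) → P u)
    {z : V} (h : LV G D E ρ z) : P z := by
  obtain ⟨k, hk⟩ := (lv_iff hρ).1 h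
  induction k generalizing z with
  | zero => exact h0 _ hk.1 hk.2.1
  | succ k ih =>
    have hz : z ∈ D := hk.2.2 0 (Nat.succ_pos k)
    have h2 : LV G D E ρ (ρ z) := (lv_in hρ hz).1 h
    refine h1 z hz h2 (ih h2 ⟨hk.1, hk.2.1, fun j hj => hk.2.2 (j + 1) (Nat.succ_lt_succ hj)⟩)

theorem lv_mono {ρ : V → V} (hρ : Ch G ρ) {D D' E E' : Set V} (hD : ∀ u ∈ D, u ∉ D' → u ∈ E')
    (hE : ∀ e ∈ E, e ∉ D → e ∈ E' ∧ e ∉ D') {z : V} (h : LV G D E ρ z) : LV G D' E' ρ z := by
  refine lv_ind hρ (P := fun z => LV G D' E' ρ z) (fun e he heD => ?_) (fun u hu _ ih => ?_) h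
  · obtain ⟨h1, h2⟩ := hE e he heD
    exact (lv_out hρ h2).2 h1
  · by_cases h1 : u ∈ D'
    · exact (lv_in hρ h1).2 ih
    · exact (lv_out hρ h1).2 (hD u hu h1)

/-- TRANSFER: `ρ'` is the new law, `ρ` the old one; they agree outside of the area `A` and the new path `Bs`; a route
outside of `A` and `Bs` never enters `A`. -/
theorem lv_transfer {ρ ρ' : V → V} (hρ : Ch G ρ) (hρ' : Ch G ρ') {A Bs D D' E E' : Set V}
    (hag : ∀ u ∈ D, u ∉ A → u ∉ Bs → ρ' u = ρ u)
    (hne : ∀ u ∈ D, u ∉ A → u ∉ Bs → ρ u ∉ A)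
    (hD : ∀ u ∈ D, u ∉ A → u ∉ Bs → u ∈ D' ∨ u ∉ D' ∧ u ∈ E')
    (hB : ∀ u ∈ D, u ∈ Bs → u ∈ E' ∧ u ∉ D')
    (hE : ∀ e ∈ E, e ∉ D → e ∉ A → e ∈ E' ∧ e ∉ D')
    {z : V} (hz : z ∉ A) (h : LV G D E ρ z) : LV G D' E' ρ' z := by
  refine lv_ind hρ (P := fun z => z ∉ A → LV G D' E' ρ' z) (fun e he heD hA => ?_) (fun u hu _ ih hA => ?_) h hz
  · obtain ⟨h1, h2⟩ := hE e he heD hA
    exact (lv_out hρ' h2).2 h1
  · by_cases hb : u ∈ Bs
    · obtain ⟨h1, h2⟩ := hB u hu hb
      exact (lv_out hρ' h2).2 h1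
    · rcases hD u hu hA hb with h1 | ⟨h1, h2⟩
      · rw [lv_in hρ' h1, hag u hu hA hb]
        exact ih (hne u hu hA hb)
      · exact (lv_out hρ' h1).2 h2

/-- Inside the area the new route stays till it is on the path. -/
theorem lv_area {ρ' : V → V} (hρ' : Ch G ρ') {A Bs D' E' : Set V} (hst : ∀ u ∈ A, ρ' u ∈ A ∨ ρ' u ∈ Bs)
    (hAi : ∀ u ∈ A, G.inn u) (hA : ∀ u ∈ A, u ∈ D' ∨ u ∉ D' ∧ u ∈ E') (hB : ∀ u ∈ Bs, u ∈ E' ∧ u ∉ D')
    {z : V} (hz : z ∈ A) : LV G D' E' ρ' z := by
  have key : ∀ n z, G.N - G.t z ≤ n → z ∈ A → LV G D' E' ρ' z := by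
    intro n
    induction n with
    | zero =>
      intro z hn hz
      have h1 := hAi z hz
      have h2 := G.t_in z h1.1 h1.2
      omega
    | succ n ih =>
      intro z hn hz
      rcases hA z hz with h1 | ⟨h1, h2⟩
      · rw [lv_in hρ' h1]
        rcases hst z hz with h3 | h3
        · refine ih _ ?_ h3
          have h4 := hAi z hz
          have h5 : G.t z < G.t (ρ' z) := by
            rcases hρ'.2.2 z h4 with k | k
            · rw [k]; exact t_lo G h4
            · rw [k]; exact t_up G h4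
          have h6 := G.t_in z h4.1 h4.2
          omega
        · obtain ⟨h4, h5⟩ := hB _ h3
          exact (lv_out hρ' h5).2 h4
      · exact (lv_out hρ' h1).2 h2
  exact key _ z le_rfl hz

/-- Monotonicity: a choice function which is lower along its own route. -/
theorem host_mono {ρ ρ' : V → V} (hρ : Ch G ρ) (hρ' : Ch G ρ') {y : V} {T : ℕ}
    (h : ∀ u, Orb ρ' y u → G.t u < T → G.inn u → G.r (ρ' u) ≤ G.r (ρ u)) {τ : ℕ} (hb : G.b y ≤ τ) (hT : τ ≤ T)
    (hN : τ ≤ G.N) : G.r (host G ρ' y τ) ≤ G.r (host G ρ y τ) := by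
  induction τ with
  | zero =>
    have e1 : host G ρ' y 0 = y := host_self hρ' (Nat.zero_le _)
    have e2 : host G ρ y 0 = y := host_self hρ (Nat.zero_le _)
    rw [e1, e2]
  | succ τ ih =>
    rcases Nat.lt_or_ge τ (G.b y) with h0 | h0
    · have h1 : τ + 1 = G.b y := by omega
      have h2 : τ + 1 ≤ G.t y := by have := G.bt y; omega
      rw [host_self hρ' h2, host_self hρ h2]
    · have ih' := ih h0 (by omega) (by omega)
      have al' := host_al hρ' h0 (by omega : τ ≤ G.N)
      have al := host_al hρ h0 (by omega : τ ≤ G.N)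
      have hst' := host_step hρ' (u := y) h0 hN
      have hst := host_step hρ (u := y) h0 hN
      set a' := host G ρ' y τ with ha'
      set a := host G ρ y τ with ha
      have hin : ∀ w, G.t w = τ → G.inn w := by
        intro w hw
        constructor
        · intro e
          have := G.t_bot
          rw [e] at hw
          omega
        · intro e
          have := G.t_top
          rw [e] at hw
          omega
      have hnb : ∀ (π : V → V), Ch G π → ∀ w, G.inn w → G.r (G.lo w) ≤ G.r (π w) ∧ G.r (π w) ≤ G.r (G.up w) := by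
        intro π hπ w hw
        have h1 := r_lo G hw
        have h2 := r_up G hw
        rcases hπ.2.2 w hw with k | k
        · rw [k]; omega
        · rw [k]; omega
      rcases hst' with ⟨e', l'⟩ | ⟨e', l'⟩ <;> rcases hst with ⟨e, l⟩ | ⟨e, l⟩
      · rw [e', e]; exact ih'
      · -- a dies
        rw [e', e]
        have hi := hin a l
        have hne : a' ≠ a := by
          intro k
          rw [k] at l'
          omega
        have hlt : G.r a' < G.r a := lt_of_le_of_ne ih' fun k => hne (G.r_inj k)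
        have hbot : a ≠ G.bot := hi.1
        obtain ⟨s1, s2, s3⟩ := lb_spec G (x := a) (τ := τ) (by omega) hbot
        have h3 : G.r a' ≤ G.r (G.lb a τ) := s3 a' al' hlt
        have h4 : G.lo a = G.lb a τ := by
          show G.lb a (G.t a) = G.lb a τ
          rw [l]
        have h5 := (hnb ρ hρ a hi).1
        rw [h4] at h5
        omega
      · rw [e', e]
        have hi := hin a' l'
        have hne : a' ≠ a := by
          intro k
          rw [← k] at l
          omega
        have hlt : G.r a' < G.r a := lt_of_le_of_ne ih' fun k => hne (G.r_inj k)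
        obtain ⟨s1, s2, s3⟩ := ub_spec G (x := a') (τ := τ) (by omega) hi.2
        have h3 : G.r (G.ub a' τ) ≤ G.r a := s3 a al hlt
        have h4 : G.up a' = G.ub a' τ := by
          show G.ub a' (G.t a') = G.ub a' τ
          rw [l']
        have h5 := (hnb ρ' hρ' a' hi).2
        rw [h4] at h5
        omega
      · have hk : a' = a := G.t_inj (l'.trans l.symm)
        rw [e', e]
        have h1 : G.r (ρ' a') ≤ G.r (ρ a') := h a' (host_orb G ρ' y τ) (by omega) (hin a' l')
        rw [hk] at h1 ⊢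
        exact h1

end Pool.Agent.W_a4f561_Lv53
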