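import Pool.Agent.W_a4f561_h53.Hd53

/-!
MP_a4f561_co (polylog, section 4): (I1) of all cells after the draw of a piece and after the declarations and the
relabelling of one phase. helper53.
-/

set_option autoImplicit false
set_option linter.unusedSectionVars false

namespace Pool.Agent.W_a4f561_I153

open Pool.Agent.W_a4f561_h26
open Pool.Agent.W_a4f561_P73
open Pool.Agent.W_a4f561_P25
open Pool.Agent.W_a4f561_Lv53
open Pool.Agent.W_a4f561_Hd53

variable {V : Type} {G : Bars V}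

/-- The cell `k` outside of `S`. -/
def Dk (S : Set V) (cell : V → ℕ) (k : ℕ) : Set V := {z | z ∉ S ∧ cell z = k}

/-- The exits of the cell `k`: `Q k c` says that the label `c` is a descendant of `k` or of an earlier sibling of `k`. -/
def Ek (Q : ℕ → ℕ → Prop) (bd : ℕ → Set V) (cell : V → ℕ) (k : ℕ) : Set V := {z | Q k (cell z) ∨ z ∈ bd k}

/-- (I1) after a draw: `S` grows, the labels stay, the laws agree outside of the new `S`. -/
theorem i1_draw {ρ ρ' : V → V} (hρ : Ch G ρ) (hρ' : Ch G ρ') {S S' : Set V} {cell : V → ℕ} {Q : ℕ → ℕ → Prop}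
    {bd : ℕ → Set V} {k : ℕ} (hQ : Q k k) (hS : S ⊆ S') (hag : ∀ u, u ∉ S' → ρ' u = ρ u) {z : V}
    (h : LV G (Dk S cell k) (Ek Q bd cell k) ρ z) : LV G (Dk S' cell k) (Ek Q bd cell k) ρ' z := by
  refine lv_transfer hρ hρ' (A := ∅) (Bs := S') (D := Dk S cell k) (D' := Dk S' cell k) (E := Ek Q bd cell k)
    (E' := Ek Q bd cell k) (fun u _ _ hb => hag u hb) (fun u _ _ _ => Set.notMem_empty _)
    (fun u hu _ hb => Or.inl ⟨hb, hu.2⟩) (fun u hu hb => ⟨Or.inl ?_, fun h1 => h1.1 hb⟩)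
    (fun e he heD _ => ⟨he, fun h1 => heD ⟨fun h2 => h1.1 (hS h2), h1.2⟩⟩) (Set.notMem_empty z) h
  rw [hu.2]
  exact hQ

/-- The hosts of the phase up to its last time die up to this time. -/
theorem host_le {π : V → V} (hπ : Ch G π) {z l : V} {tl c : ℕ} (hl : Orb π z l) (hlt : G.t l = tl) (hN : tl ≤ G.N)
    (hc : c ≤ tl) : G.t (host G π z c) ≤ tl := by
  have h1 := host_host hπ (u := z) hc hN
  rw [host_of_orb hπ hl hlt.symm hN] at h1
  have h2 : Orb π (host G π z c) l := by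
    rw [← h1]
    exact host_orb25 hπ _ hN
  rw [← hlt]
  exact Orb.t_le hπ h2

section

variable {π : V → V} (hπ : Ch G π) {z0 : V} {tl : ℕ} (hN : tl ≤ G.N)

include hπ hN

/-- (P2) for both sides: in an area the new law stays in the areas till it is on the phase. -/
theorem stay {l : V} (hl : Orb π z0 l) (hlt : G.t l = tl) {ρ' : V → V} (hρ' : Ch G ρ')
    (hbD : ∀ y a c u, Ar G π z0 tl y a c u → ρ' u ≠ y) (hbU : ∀ y a c u, Ar G.mir π z0 tl y a c u → ρ' u ≠ y)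
    {u : V} (hu : Area G π z0 tl u) : Area G π z0 tl (ρ' u) ∨ Orb π z0 (ρ' u) ∧ G.t (ρ' u) ≤ tl := by
  rcases hu with ⟨y, a, c, hu⟩ | ⟨y, a, c, hu⟩
  · rcases hu.fwd hπ hN hρ' (hbD y a c u hu) with h1 | ⟨h1, h2⟩
    · exact Or.inl (Or.inl ⟨y, a, c, h1⟩)
    · exact Or.inr ⟨h1, h2.trans (host_le hπ hl hlt hN hu.2.2.1.2.1)⟩
  · rcases Ar.fwd (G := G.mir) hπ.mir25 hN hu hρ'.mir25 (hbU y a c u hu) with h1 | ⟨h1, h2⟩
    · exact Or.inl (Or.inr ⟨y, a, c, h1⟩)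
    · exact Or.inr ⟨h1, h2.trans (host_le hπ hl hlt hN hu.2.2.1.2.1)⟩

variable {ρ ρ' : V → V} (hρ : Ch G ρ) (hρ' : Ch G ρ') {S S' : Set V} {cell cell' : V → ℕ} {i : ℕ}
  {Q : ℕ → ℕ → Prop} {bd : ℕ → Set V}

include hρ' in
/-- (I1) after relabelling, inside an area: success surely. -/
theorem i1_area (hQ : Q i i) (hO : ∀ v, Orb π z0 v → G.t v ≤ tl → v ∈ S') (hcA : ∀ u, Area G π z0 tl u → cell' u = i)
    (hB : ∀ v, Orb π z0 v → G.t v ≤ tl → cell' v = i)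
    (hst : ∀ u, Area G π z0 tl u → Area G π z0 tl (ρ' u) ∨ Orb π z0 (ρ' u) ∧ G.t (ρ' u) ≤ tl)
    (hAS : ∀ u, Area G π z0 tl u → u ∉ S') {z : V} (hz : Area G π z0 tl z) :
    LV G (Dk S' cell' i) (Ek Q bd cell' i) ρ' z := by
  refine lv_area hρ' (A := {u | Area G π z0 tl u}) (Bs := {v | Orb π z0 v ∧ G.t v ≤ tl})
    (D' := Dk S' cell' i) (E' := Ek Q bd cell' i) (fun u hu => hst u hu)
    (fun u hu => Area.inn hπ hN hu) (fun u hu => Or.inl ⟨hAS u hu, hcA u hu⟩)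
    (fun u hu => ⟨Or.inl ?_, fun h1 => h1.1 (hO u hu.1 hu.2)⟩) hz
  rw [hB u hu.1 hu.2]
  exact hQ

include hρ hρ' in
/-- (I1) after relabelling, outside of the areas: an old success is a new success. -/
theorem i1_out {k : ℕ} (hQ : Q k k) (hS : S ⊆ S') (hbt : G.bot ∈ S ∧ G.top ∈ S) (hO : ∀ v, Orb π z0 v → G.t v ≤ tl → v ∈ S')
    (hcn : ∀ u, ¬ Area G π z0 tl u → cell' u = cell u) (hAS : ∀ u, Area G π z0 tl u → u ∉ S')
    (hag : ∀ u, u ∉ S' → ¬ Area G π z0 tl u → ρ' u = ρ u) {z : V} (hz : ¬ Area G π z0 tl z)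
    (h : LV G (Dk S cell k) (Ek Q bd cell k) ρ z) : LV G (Dk S' cell' k) (Ek Q bd cell' k) ρ' z := by
  refine lv_transfer hρ hρ' (A := {u | Area G π z0 tl u}) (Bs := S') (D := Dk S cell k) (D' := Dk S' cell' k)
    (E := Ek Q bd cell k) (E' := Ek Q bd cell' k) (fun u _ hA hb => hag u hb hA)
    (fun u hu hA hb hA' => ?_) (fun u hu hA hb => Or.inl ⟨hb, ?_⟩) (fun u hu hb => ⟨Or.inl ?_, fun h1 => h1.1 hb⟩)
    (fun e he heD hA => ⟨?_, fun h1 => heD ⟨fun h2 => h1.1 (hS h2), ?_⟩⟩) hz h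
  · have hi : G.inn u := by
      constructor
      · rintro rfl
        exact hu.1 hbt.1
      · rintro rfl
        exact hu.1 hbt.2
    have ht : G.t u ≤ tl := (hρ.t_lt hi).le.trans (Area.time hπ hN hA').2.le
    exact hA (Area.back hπ hN hA' hρ hi (fun h1 => hb (hO u h1 ht)) rfl)
  · rw [hcn u hA]
    exact hu.2
  · have hA : ¬ Area G π z0 tl u := fun h1 => hAS u h1 hb
    rw [hcn u hA, hu.2]
    exact hQ
  · show Q k (cell' e) ∨ e ∈ bd k
    rw [hcn e hA]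
    exact he
  · rw [← hcn e hA]
    exact h1.2

end

/-! ### with probabilities -/

section pr

variable [Fintype V] [DecidableEq V]

theorem pr_mono53 {A B : (V × Bool → Bool) → Prop} (h : ∀ ω, A ω → B ω) :
    pr (fun _ => none) A ≤ pr (fun _ => none) B := by
  classical
  unfold pr
  apply div_le_div_of_nonneg_right _ (by positivity)
  exact_mod_cast Finset.card_le_card (fun ω hω => by
    rw [Finset.mem_filter] at hω ⊢
    exact ⟨hω.1, h _ hω.2⟩)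

theorem pr_true53 {A : (V × Bool → Bool) → Prop} (h : ∀ ω, A ω) : pr (fun _ => none) A = 1 := by
  classical
  unfold pr
  rw [Finset.filter_true_of_mem (fun ω _ => h _), Finset.card_univ, Fintype.card_fun, Fintype.card_bool]
  push_cast
  exact div_self (by positivity)

/-- (I1) after a draw. -/
theorem i1_draw_pr {ρ ρ' : (V × Bool → Bool) → V → V} (hρ : ∀ ω, Ch G (ρ ω)) (hρ' : ∀ ω, Ch G (ρ' ω)) {S S' : Set V}
    {cell : V → ℕ} {Q : ℕ → ℕ → Prop} {bd : ℕ → Set V} {κ : ℕ → ℝ} (hQ : ∀ k, Q k k) (hS : S ⊆ S')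
    (hag : ∀ ω u, u ∉ S' → ρ' ω u = ρ ω u)
    (h1 : ∀ z, z ∉ S → κ (cell z) ≤ pr (fun _ => none) (fun ω => LV G (Dk S cell (cell z)) (Ek Q bd cell (cell z)) (ρ ω) z))
    (z : V) (hz : z ∉ S') :
    κ (cell z) ≤ pr (fun _ => none) (fun ω => LV G (Dk S' cell (cell z)) (Ek Q bd cell (cell z)) (ρ' ω) z) :=
  (h1 z fun h => hz (hS h)).trans (pr_mono53 fun ω h => i1_draw (hρ ω) (hρ' ω) (hQ _) hS (hag ω) h)

/-- (I1) after the declarations and the relabelling of one phase (`κ k` = threshold of the cell `k`). -/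
theorem i1_relabel {π : V → V} (hπ : Ch G π) {z0 : V} {tl : ℕ} (hN : tl ≤ G.N) {ρ ρ' : (V × Bool → Bool) → V → V}
    (hρ : ∀ ω, Ch G (ρ ω)) (hρ' : ∀ ω, Ch G (ρ' ω)) {S S' : Set V}
    {cell cell' : V → ℕ} {i : ℕ} {Q : ℕ → ℕ → Prop} {bd : ℕ → Set V} {κ : ℕ → ℝ} (hκ : ∀ k, κ k ≤ 1) (hQ : ∀ k, Q k k)
    (hS : S ⊆ S') (hbt : G.bot ∈ S ∧ G.top ∈ S) (hO : ∀ v, Orb π z0 v → G.t v ≤ tl → v ∈ S')
    (hcA : ∀ u, Area G π z0 tl u → cell' u = i) (hcn : ∀ u, ¬ Area G π z0 tl u → cell' u = cell u)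
    (hB : ∀ v, Orb π z0 v → G.t v ≤ tl → cell' v = i) (hAS : ∀ u, Area G π z0 tl u → u ∉ S')
    (hst : ∀ ω u, Area G π z0 tl u → Area G π z0 tl (ρ' ω u) ∨ Orb π z0 (ρ' ω u) ∧ G.t (ρ' ω u) ≤ tl)
    (hag : ∀ ω u, u ∉ S' → ¬ Area G π z0 tl u → ρ' ω u = ρ ω u)
    (h1 : ∀ z, z ∉ S → κ (cell z) ≤ pr (fun _ => none) (fun ω => LV G (Dk S cell (cell z)) (Ek Q bd cell (cell z)) (ρ ω) z))
    (z : V) (hz : z ∉ S') :
    κ (cell' z) ≤ pr (fun _ => none)
      (fun ω => LV G (Dk S' cell' (cell' z)) (Ek Q bd cell' (cell' z)) (ρ' ω) z) := by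
  by_cases hA : Area G π z0 tl z
  · rw [hcA z hA, pr_true53 fun ω => i1_area hπ hN (hρ' ω) (hQ i) hO hcA hB (hst ω) hAS hA]
    exact hκ i
  · rw [hcn z hA]
    exact (h1 z fun h => hz (hS h)).trans (pr_mono53 fun ω h =>
      i1_out hπ hN (hρ ω) (hρ' ω) (hQ _) hS hbt hO hcn hAS (hag ω) hA h)

end pr

end Pool.Agent.W_a4f561_I153
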