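import Pool.Agent.W_a4f561_h1.Def
import Pool.Agent.W_a4f561_P31.Heads
import Pool.Agent.W_a4f561_h53.I153

/-!
MP_a4f561_co (polylog): the field `I1` of `WI` after a draw (`MS.draw`). helper53.
-/

set_option autoImplicit false
set_option linter.unusedSectionVars false

namespace Pool.Agent.W_a4f561_DrI53

open Pool.Agent.W_a4f561_h26 Pool.Agent.W_a4f561_P73 Pool.Agent.W_a4f561_P45 Pool.Agent.W_a4f561_P8
open Pool.Agent.W_a4f561_P16
open Pool.Agent.W_a4f561_P25 (Tc Ar Area ArD)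
open Pool.Agent.W_a4f561_h1 (MS WInv IsRc WI TD Dr1 Bp Exi)
open Pool.Agent.W_a4f561_Lv53 Pool.Agent.W_a4f561_Hd53 Pool.Agent.W_a4f561_I153

variable {V : Type} {G : Bars V}

theorem ch_of {σ : St V} {c : V} (h : WInv G σ c) (ω : V × Bool → Bool) : Ch G (law G σ ω) :=
  Pool.Agent.W_a4f561_P31.ch_law31 h.bot_mem h.top_mem h.ch ω

/-- A choice function equal to the state on `S ∪ Dec`. -/
theorem fin_of {σ : St V} {c : V} (h : WInv G σ c) (ω : V × Bool → Bool) : Fin' G σ (law G σ ω) :=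
  ⟨ch_of h ω, fun v hv => by
    unfold law
    rw [if_pos hv]⟩

section dr

variable {σ σ1 : St V} {D : Set V} {ω : V × Bool → Bool} {z e vl : V} (hD : Dr1 G σ D ω z e vl σ1)

include hD

/-- The route of `z` in the new state up to `vl` is the phase. -/
theorem phase_orb {v : V} (h : Orb σ1.pi z v) (ht : G.t v ≤ G.t vl) : v ∈ Bp G σ D ω z := by
  obtain ⟨k, hk⟩ := h
  have hin : ∀ v', Orb (law G σ ω) z v' → G.t v' ≤ G.t vl → v' ∈ Bp G σ D ω z := by
    intro v' h1 h2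
    exact ⟨h1, fun w hw hwt => hD.vlB.2 w hw (hwt.trans h2)⟩
  induction k generalizing v with
  | zero =>
    have e1 : z = v := hk
    rw [← e1]
    rw [← e1] at ht
    exact hin z (Orb.refl _ z) ht
  | succ k ih =>
    rw [Function.iterate_succ_apply'] at hk
    have h1 : G.t (σ1.pi^[k] z) ≤ G.t v := by
      rw [← hk]
      exact Orb.t_le hD.inv.ch (Orb.step (Orb.refl _ _))
    have h2 := ih (h1.trans ht) rfl
    have h3 := hD.piB _ h2
    rw [h3] at hk
    rw [← hk] at ht ⊢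
    exact hin _ (Orb.step h2.1) ht

theorem bp_orb (hch : Ch G (law G σ ω)) {v : V} (h : v ∈ Bp G σ D ω z) : Orb σ1.pi z v := by
  obtain ⟨⟨k, hk⟩, h2⟩ := h
  induction k generalizing v with
  | zero => exact ⟨0, hk⟩
  | succ k ih =>
    rw [Function.iterate_succ_apply'] at hk
    have h3 : G.t ((law G σ ω)^[k] z) ≤ G.t v := by
      rw [← hk]
      exact Orb.t_le hch (Orb.step (Orb.refl _ _))
    have h4 : (law G σ ω)^[k] z ∈ Bp G σ D ω z := ⟨⟨k, rfl⟩, fun w hw hwt => h2 w hw (hwt.trans h3)⟩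
    have h5 := ih (fun w hw hwt => h2 w hw (hwt.trans h3)) rfl
    have h6 := Orb.step h5
    rw [hD.piB _ h4, hk] at h6
    exact h6

/-- The vertices of the phase die up to `t vl`. -/
theorem bp_le (hch : Ch G (law G σ ω)) (heD : e ∉ D) {v : V} (h : v ∈ Bp G σ D ω z) : G.t v ≤ G.t vl := by
  by_contra hcon
  rw [not_le] at hcon
  have h1 : Orb (law G σ ω) vl v := by
    rcases Orb.cmp h.1 hD.vlB.1 with h2 | h2
    · exact absurd (Orb.t_le hch h2) (not_le.2 hcon)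
    · exact h2
  obtain ⟨k, hk⟩ := h1
  cases k with
  | zero =>
    have e1 : vl = v := hk
    rw [e1] at hcon
    exact lt_irrefl _ hcon
  | succ k =>
    rw [Function.iterate_succ_apply, hD.vle] at hk
    have h2 : G.t e ≤ G.t v := Orb.t_le hch ⟨k, hk⟩
    have h3 : Orb (law G σ ω) z e := by
      rw [← hD.vle]
      exact Orb.step hD.vlB.1
    exact heD (h.2 e h3 h2)

/-- An area vertex (D-side) never steps on its barrier. -/
theorem no_barD {ρ : V → V} (hρ : Fin' G σ1 ρ) (hN : G.t vl ≤ G.N) {y : V} {a c : ℕ} {u : V}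
    (hu : Ar G σ1.pi z (G.t vl) y a c u) : ρ u ≠ y := by
  let _ := G.ord
  intro e1
  obtain ⟨hac, k1, k2, k3⟩ := hu.p0 hD.inv.ch hN
  have hcN : c ≤ G.N := hu.2.2.1.2.1.trans hN
  have hin : G.inn u := G.inn_of_t k2 hcN
  obtain ⟨R, hR, r1, r2, r3, r4⟩ := hD.exD y a c hac.le hu.2.1 hu.2.2.1
  have hlt := k3 _ (G.al_t u)
  have hup : G.up u = y := by
    rcases hρ.1.2.2 u hin with h1 | h1
    · exfalso
      have h2 : G.r (G.lo u) < G.r u := (G.up_lo hin).lt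
      rw [← h1, e1] at h2
      exact lt_asymm h2 hlt.2
    · rw [← h1, e1]
  have hIs := hD.inv.recD R hR
  obtain ⟨h5, h6⟩ := hIs.dec u hin (r3.trans (k1.le.trans (G.bt u))) (k2.trans_le r4) (by rw [r1]; exact hlt.1)
    (by rw [hup, r2])
  have h7 := hρ.2 u h5
  rw [h6, e1] at h7
  have h8 : G.r (G.lo u) < G.r u := (G.up_lo hin).lt
  rw [← h7] at h8
  exact lt_asymm h8 hlt.2

/-- An area vertex (U-side) never steps on its barrier. -/
theorem no_barU {ρ : V → V} (hρ : Fin' G σ1 ρ) (hN : G.t vl ≤ G.N) {y : V} {a c : ℕ} {u : V}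
    (hu : Ar G.mir σ1.pi z (G.t vl) y a c u) : ρ u ≠ y := by
  let _ := G.ord
  intro e1
  obtain ⟨hac, k1, k2, k3⟩ := hu.p0 (G := G.mir) hD.inv.ch.mir25 hN
  have hcN : c ≤ G.N := hu.2.2.1.2.1.trans hN
  have hin : G.inn u := G.inn_of_t k2 hcN
  obtain ⟨R, hR, r1, r2, r3, r4⟩ := hD.exU y a c hac.le hu.2.1 hu.2.2.1
  have hlt := k3 _ (G.al_t u)
  have hl1 : G.r y < G.r u := G.mir_lt.1 hlt.2
  have hlo : G.lo u = y := by
    rcases hρ.1.2.2 u hin with h1 | h1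
    · rw [← h1, e1]
    · exfalso
      have h2 : G.r u < G.r (G.up u) := (G.up_up hin).lt
      rw [← h1, e1] at h2
      exact lt_asymm h2 hl1
  have hIs := hD.inv.recU R hR
  obtain ⟨h5, h6⟩ := hIs.dec u ⟨hin.2, hin.1⟩ (r3.trans (k1.le.trans (G.bt u))) (k2.trans_le r4)
    (by rw [r1]; exact hlt.1) (by rw [r2]; exact hlo)
  have h7 := hρ.2 u h5
  rw [h6, e1, G.mir_lo] at h7
  have h8 : G.r u < G.r (G.up u) := (G.up_up hin).lt
  rw [← h7] at h8
  exact lt_asymm h8 hl1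

end dr

section pr

variable [Fintype V] [DecidableEq V]

/-- The exits as in `I153`. -/
theorem lv_E {X : MS V} {k : ℕ} {ρ : V → V} {v : V} :
    LV G (X.D k) (X.E G k) ρ v ↔ LV G (Dk X.σ.S X.cell k)
      (Ek (fun k c => Anc X.par k c ∨ ∃ j, 1 ≤ j ∧ j < k ∧ X.cls j = X.cls k ∧ Anc X.par j c) (X.bd G) X.cell k) ρ v := by
  constructor
  · rintro ⟨e, he, heD, h1, h2⟩
    refine ⟨e, ?_, heD, h1, h2⟩
    rcases he.1 with h3 | h3 | ⟨j, h3⟩
    · exact Or.inl (Or.inl h3)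
    · exact Or.inr h3
    · exact Or.inl (Or.inr ⟨j, h3⟩)
  · rintro ⟨e, he, heD, h1, h2⟩
    refine ⟨e, ⟨?_, heD⟩, heD, h1, h2⟩
    rcases he with (h3 | ⟨j, h3⟩) | h3
    · exact Or.inl h3
    · exact Or.inr (Or.inr ⟨j, h3⟩)
    · exact Or.inr (Or.inl h3)

variable {rnk : V → ℕ} {N : ℕ} {X : MS V} {z e vl r : V} {ω : V × Bool → Bool} {σ1 : St V}

theorem draw_I1 {E : Set V} {δ : ℝ} (hW : WI G rnk N 0 X z) (_hz : z ∉ X.σ.S)
    (_hT : TD G X.σ (X.D (X.cell z)) E δ N ω z e) (hD : Dr1 G X.σ (X.D (X.cell z)) ω z e vl σ1) :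
    ∀ v, v ∉ σ1.S → kap (Fintype.card V)
      (X.rk ((X.draw σ1 (Bp G X.σ (X.D (X.cell z)) ω z) {u | Area G σ1.pi z (G.t vl) u} z r).cell v)) ≤
    pr (fun _ => none) (fun ω' => LV G
      ((X.draw σ1 (Bp G X.σ (X.D (X.cell z)) ω z) {u | Area G σ1.pi z (G.t vl) u} z r).D
        ((X.draw σ1 (Bp G X.σ (X.D (X.cell z)) ω z) {u | Area G σ1.pi z (G.t vl) u} z r).cell v))
      ((X.draw σ1 (Bp G X.σ (X.D (X.cell z)) ω z) {u | Area G σ1.pi z (G.t vl) u} z r).E G
        ((X.draw σ1 (Bp G X.σ (X.D (X.cell z)) ω z) {u | Area G σ1.pi z (G.t vl) u} z r).cell v))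
      (law G σ1 ω') v) := by
  intro v hv
  have hvN : G.t vl ≤ G.N := by
    have h1 : vl ∉ X.σ.S := (hD.vlB.2 vl hD.vlB.1 le_rfl).1
    refine (G.t_in vl ?_ ?_).le
    · rintro rfl
      exact h1 hW.inv.bot_mem
    · rintro rfl
      exact h1 hW.inv.top_mem
  classical
  set B := Bp G X.σ (X.D (X.cell z)) ω z with hB
  set A := {u | Area G σ1.pi z (G.t vl) u} with hA
  set Y := X.draw σ1 B A z r with hY
  have hcell : ∀ u, Y.cell u = if u ∈ A then X.cell z else X.cell u := fun u => rfl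
  have hcA : ∀ u, Area G σ1.pi z (G.t vl) u → Y.cell u = X.cell z := fun u hu => by
    rw [hcell, if_pos (show u ∈ A from hu)]
  have hcn : ∀ u, ¬ Area G σ1.pi z (G.t vl) u → Y.cell u = X.cell u := fun u hu => by
    rw [hcell, if_neg (show u ∉ A from hu)]
  have hBS : ∀ u ∈ B, u ∉ X.σ.S := fun u hu => (hu.2 u hu.1 le_rfl).1
  have hBc : ∀ u ∈ B, X.cell u = X.cell z := fun u hu => (hu.2 u hu.1 le_rfl).2
  have hn1 : 1 ≤ Fintype.card V := Fintype.card_pos_iff.2 ⟨z⟩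
  have hch : ∀ ω', Ch G (law G X.σ ω') := ch_of hW.inv
  have hch1 : ∀ ω', Ch G (law G σ1 ω') := ch_of hD.inv
  have hSS : X.σ.S ⊆ σ1.S := fun u hu => (hD.S u).2 (Or.inl hu)
  let Q : ℕ → ℕ → Prop := fun k c => Anc X.par k c ∨ ∃ j, 1 ≤ j ∧ j < k ∧ X.cls j = X.cls k ∧ Anc X.par j c
  have hQ : ∀ k, Q k k := fun k => Or.inl (anc_refl _ _)
  have hmain := i1_relabel (G := G) (π := σ1.pi) hD.inv.ch (z0 := z) hvN (ρ := fun ω' => law G X.σ ω')
    (ρ' := fun ω' => law G σ1 ω') hch hch1 (S := X.σ.S) (S' := σ1.S) (cell := X.cell) (cell' := Y.cell)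
    (i := X.cell z) (Q := Q) (bd := X.bd G) (κ := fun k => kap (Fintype.card V) (X.rk k))
    (fun k => kap_le_one hn1 _) hQ hSS ⟨hW.inv.bot_mem, hW.inv.top_mem⟩
    (fun u h1 h2 => (hD.S u).2 (Or.inr (phase_orb hD h1 h2))) hcA hcn
    (fun u h1 h2 => by
      have h3 := phase_orb hD h1 h2
      rw [hcn u (hD.noS u ((hD.S u).2 (Or.inr h3)))]
      exact hBc u h3)
    (fun u hu hS => hD.noS u hS hu)
    (fun ω' u hu => stay hD.inv.ch hvN (bp_orb hD (hch ω) hD.vlB) rfl (hch1 ω')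
      (fun y a c w hw => no_barD hD (fin_of hD.inv ω') hvN hw)
      (fun y a c w hw => no_barU hD (fin_of hD.inv ω') hvN hw) hu)
    (fun ω' u hu hn => by
      by_cases h1 : u ∈ X.σ.Dec
      · show law G σ1 ω' u = law G X.σ ω' u
        unfold law
        rw [if_pos (show u ∈ σ1.S ∪ σ1.Dec from Or.inr (hD.Dec h1)),
          if_pos (show u ∈ X.σ.S ∪ X.σ.Dec from Or.inr h1)]
        exact hD.piO u (Or.inr h1)
      · show law G σ1 ω' u = law G X.σ ω' u
        have h2 : u ∉ σ1.Dec := fun h2 => hn (hD.decN u h2 h1).2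
        have h3 : u ∉ σ1.S ∪ σ1.Dec := by
          rintro (h3 | h3)
          · exact hu h3
          · exact h2 h3
        have h4 : u ∉ X.σ.S ∪ X.σ.Dec := by
          rintro (h3 | h3)
          · exact hu (hSS h3)
          · exact h1 h3
        unfold law
        rw [if_neg h3, if_neg h4])
    (fun u hu => by
      have h1 := hW.I1 u hu
      refine h1.trans (pr_mono53 fun ω' h2 => ?_)
      exact lv_E.1 h2) v hv
  refine hmain.trans (pr_mono53 fun ω' h => ?_)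
  have h2 : LV G (Y.D (Y.cell v)) (Y.E G (Y.cell v)) (law G σ1 ω') v := by
    refine lv_E.2 (lv_mono (hch1 ω') (fun u hu hu' => absurd hu hu') (fun e' he' heD => ⟨?_, heD⟩) h)
    rcases he' with h3 | h3
    · exact Or.inl h3
    · refine Or.inr ⟨⟨hSS h3.1.1, h3.1.2.1, ?_⟩, h3.2⟩
      show (if e' ∈ B then X.np + 1 else X.phs e') = X.ph (Y.cell v)
      rw [if_neg (fun h4 => hBS e' h4 h3.1.1)]
      exact h3.1.2.2
  exact h2

end pr

end Pool.Agent.W_a4f561_DrI53
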