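import Pool.Agent.W_a4f561_h53.Cpl53b

/-!
MP_a4f561_co: the stubs `couple`, `memA`, `memB`, `cplA`, `cplB` of `W_a4f561_h26.Cpl` (helper53).
-/

set_option autoImplicit false

namespace Pool.Agent.W_a4f561_h53

open Pool.Agent.W_a4f561_h26 Pool.Agent.W_a4f561_E.Pk25

variable {V : Type} [Fintype V] [DecidableEq V] {G : Bars V}
  {σ σ1 σk : St V} {m0 : V × Bool → Option Bool} {ω : V × Bool → Bool} {z : V} {K Tm T : ℕ} {E : Set V}

omit [Fintype V] [DecidableEq V] in
theorem Le.trans' {σ σ1 σk : St V} (h : Le σ σ1) (h' : Le σ1 σk) {v : V} (hv : v ∈ σ.S ∪ σ.Dec) :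
    v ∈ σk.S ∪ σk.Dec ∧ σk.pi v = σ.pi v := by
  have h1 : v ∈ σ1.S ∪ σ1.Dec := hv.elim (fun a => Or.inl (h.S a)) fun a => Or.inr (h.Dec a)
  refine ⟨h1.elim (fun a => Or.inl (h'.S a)) fun a => Or.inr (h'.Dec a), ?_⟩
  rw [h'.pi v h1, h.pi v hv]

/-- Pointwise coupling. `y` is the upper neighbour of the host `lo v` at time `τ` (D-step `v → lo v` of the path). -/
theorem couple (h : Ctx G σ m0 ω z K Tm E) (hd : Dr G σ ω z σ1) {w : V} (hw : OnB G σ ω z w)
    (hs : Stg G σ ω z σ1 σk (G.t w)) {v : V} (hv : Dst G σ ω z v) {τ : ℕ} (h1 : G.t v < τ)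
    (h2 : τ ≤ G.t (G.lo v)) (hy : G.ub (G.lo v) τ ∉ σk.S) (ω' : V × Bool → Bool)
    (hh : ∃ u, OnB G σ ω z u ∧ G.t u ≤ G.t w ∧ Orb (lam G σ ω') (G.ub (G.lo v) τ) u) :
    Suc G (call G σ ω z σk w) ω' (G.ub (G.lo v) τ) (tgt G σ ω z σ1 σk w) := by
  have hI := h.inv
  have hk := hs.inv
  have hle := hs.le
  set x := G.lo v with hxdef
  set y := G.ub x τ with hydef
  set l1 := lam G σ ω' with hl1
  set l3 := lam G (call G σ ω z σk w) ω' with hl3
  have c1 : Ch G l1 := lam_ch hI.bot_mem hI.top_mem hI.ch ω'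
  have c3 : Ch G l3 := lam_ch (σ := call G σ ω z σk w) hk.bot_mem hk.top_mem hk.ch ω'
  -- facts on `v`, `x`, `y`
  have hxS : x ∉ σ.S := hv.2.2
  have hxB : OnB G σ ω z x := ⟨by
    have := Orb.step hv.1.1
    rw [hv.2.1] at this
    exact this, hxS⟩
  have hx1 : x ∈ σ1.S := by rw [hd.S]; exact Or.inr hxB
  have hv1 : v ∈ σ1.S := by rw [hd.S]; exact Or.inr hv.1
  have hvx : σk.pi v = x := by
    rw [hle.pi v (Or.inl hv1), hd.pi v hv.1]
    exact hv.2.1
  have hxi : G.inn x := ⟨fun e => hxS (e ▸ hI.bot_mem), fun e => hxS (e ▸ hI.top_mem)⟩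
  have hvi : G.inn v := ⟨fun e => hv.1.2 (e ▸ hI.bot_mem), fun e => hv.1.2 (e ▸ hI.top_mem)⟩
  have hτN : τ ≤ G.N := h2.trans (G.t_in x hxi.1 hxi.2).le
  have hxa : G.al x τ := by
    let _ := G.ord
    exact ⟨(G.up_lo hvi).ax.1.trans h1.le, h2⟩
  have hxy : @Up V G.ord G.b G.t τ x y := G.up_of_ub hxi.2 hτN hxa rfl
  have hya : G.al y τ := by
    let _ := G.ord
    exact hxy.ay
  have agS : ∀ u ∈ σk.S, l3 u = σk.pi u := fun u hu =>
    lam_SD (σ := call G σ ω z σk w) (Or.inl hu)
  have agSD : ∀ u ∈ σk.S ∪ σk.Dec, l3 u = σk.pi u := fun u hu =>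
    lam_SD (σ := call G σ ω z σk w) hu
  have cl3 : ∀ u ∈ σk.S, l3 u ∈ σk.S := fun u hu => by rw [agS u hu]; exact hk.cl u hu
  have inn' : ∀ u, u ∉ σk.S → G.inn u := fun u hu =>
    ⟨fun e => hu (e ▸ hk.bot_mem), fun e => hu (e ▸ hk.top_mem)⟩
  have key : ∃ e ∈ tgt G σ ω z σ1 σk w, EnterAt G.t l3 σk.S y e := by
    refine coup (A := {u | OnB G σ ω z u ∧ G.t u ≤ G.t w}) (l1 := l1) (t_bdd G) (fun u hu => c3.t_lt (inn' u hu))
      (fun u => c3.t_le u) (fun u hu => hle.S (by rw [hd.S]; exact Or.inr hu.1)) ?_ ?_ ?_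
    · -- the step
      rintro v' ho hn ⟨u, ⟨hu1, hu2⟩, hu3⟩
      have hi := inn' v' hn
      have hiN := G.t_in v' hi.1 hi.2
      have hvt : τ ≤ G.t v' := hya.2.trans (Orb.t_le c3 ho)
      have hne : v' ≠ u := by
        rintro rfl
        exact hn (hle.S (by rw [hd.S]; exact Or.inr hu1))
      have hu4 : Orb l1 (l1 v') u := (Orb.cases hu3).resolve_left hne
      have hhost : host G l3 y (G.t v') = v' := host_of_orb c3 ho rfl hiN.le
      have hav : ∀ s, G.b y ≤ s → s ≤ G.t v' → host G l3 y s ∉ σk.S := by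
        intro s _ hs2 hc
        have h3 := host_host c3 (u := y) hs2 hiN.le
        rw [hhost] at h3
        exact hn (h3 ▸ host_mem c3 cl3 hc hiN.le)
      have hn' : v' ∉ σ.S := fun hc => hn (hle.S (hd.le.S hc))
      by_cases hD : v' ∈ σk.Dec
      · have e3 : l3 v' = σk.pi v' := agSD v' (Or.inr hD)
        by_cases hD0 : v' ∈ σ.Dec
        · left
          rw [e3, (Le.trans' hd.le hle (Or.inr hD0)).2, hl1, lam_SD (Or.inr hD0)]
        · have hns : v' ∉ σ.S ∪ σ.Dec := fun hc => hc.elim hn' hD0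
          rcases hk.decl v' hD hn with ⟨R, hR, d1, d2, d3, d4, d5⟩ | ⟨R, hR, d1, d2, d3, d4, d5⟩
          · -- pocket above a path
            have hRk := hk.recD R hR
            have hup : G.r v' < G.r R.y := by
              let _ := G.ord
              rw [← d4]
              exact (G.up_up hi).lt
            by_cases hR0 : R ∈ σ.RD
            · exfalso
              have hR' := hI.recD R hR0
              have e1 : host G σk.pi R.q (G.t v') = host G σ.pi R.q (G.t v') :=
                host_congr25 hI.ch hk.ch hiN.le fun u h3 _ =>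
                  (Le.trans' hd.le hle (Or.inl (orb_closed hI.cl hR'.q_mem h3))).2
              rw [e1] at d3
              exact hns (hR'.dec v' hi d1.le d2 d3 d4).1
            · by_cases hR1 : R ∈ σ1.RD
              · obtain ⟨n1, n2, n3, n4, n5⟩ := hd.newD R hR1 hR0
                rcases c1.2.2 v' hi with h3 | h3
                · left
                  rw [e3, d5, h3]
                · right
                  rw [h3, d4] at hu4
                  have h4 : G.t R.y ≤ G.t w := (Orb.t_le c1 hu4).trans hu2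
                  have h5 := hRk.y_t
                  have h6 := hRk.cN
                  obtain ⟨s, s1, s2, s3⟩ := rec_meets hk.ch hRk c3 agSD d1 d2 d3 hup
                  rw [n1] at s3
                  exact pocket_enter hI hd hle hk c3 agS hw (τ := s) (by omega) (by omega) s3
                    (by rw [← n1, ← n2]; exact hRk.hostS s (by omega) s2)
              · exfalso
                have hsub := hs.recD R hR hR1
                exact rec_out hk.ch hk.cl hRk c3 (hsub hx1) hxa hxy hya.1 hya.2 hvt hav d1 d2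
                  (by rw [hhost]; exact d3) (by rw [hhost]; exact hup)
          · -- pocket below a path
            have hRk := hk.recU R hR
            have e5 : σk.pi v' = G.up v' := by rw [← G.mir_lo v']; exact d5
            have e4 : G.lo v' = R.y := d4
            have hup : G.mir.r v' < G.mir.r R.y := by
              rw [← e4, G.mir_lt]
              let _ := G.ord
              exact (G.up_lo hi).lt
            by_cases hR0 : R ∈ σ.RU
            · exfalso
              have hR' := hI.recU R hR0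
              have e1 : host G σk.pi R.q (G.t v') = host G σ.pi R.q (G.t v') :=
                host_congr25 hI.ch hk.ch hiN.le fun u h3 _ =>
                  (Le.trans' hd.le hle (Or.inl (orb_closed hI.cl hR'.q_mem h3))).2
              have d3' : G.mir.r (host G σk.pi R.q (G.t v')) < G.mir.r v' := d3
              rw [e1] at d3'
              exact hns (hR'.dec v' (G.mir_inn.2 hi) d1.le d2 d3' d4).1
            · by_cases hR1 : R ∈ σ1.RU
              · obtain ⟨n1, n2, n3, n4, n5⟩ := hd.newU R hR1 hR0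
                rcases c1.2.2 v' hi with h3 | h3
                · right
                  rw [h3, e4] at hu4
                  have h4 : G.t R.y ≤ G.t w := (Orb.t_le c1 hu4).trans hu2
                  have h5 : R.c < G.t R.y := hRk.y_t
                  have h6 : R.c ≤ G.N := hRk.cN
                  obtain ⟨s, s1, s2, s3⟩ := rec_meets (G := G.mir) hk.ch.mir25 hRk c3.mir25 agSD d1 d2 d3 hup
                  have s3' : host G l3 v' s = host G σk.pi R.q s := s3
                  have s1' : G.t v' < s := s1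
                  rw [n1] at s3'
                  exact pocket_enter hI hd hle hk c3 agS hw (τ := s) (by omega) (by omega) s3'
                    (by rw [← n1, ← n2]; exact hRk.hostS s (by have : R.a < G.t v' := d1; omega) s2)
                · left
                  rw [e3, e5, h3]
              · exfalso
                have hsub := hs.recU R hR hR1
                exact rec_out' hk.ch hk.cl hRk c3 (hsub hv1) hvx h1 (hsub hx1) hxa hxy hya.1 hya.2 hvt hav d1 d2
                  (by rw [hhost]; exact d3) (by rw [hhost]; exact hup)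
      · -- not declared
        have hD0 : v' ∉ σ.Dec := fun hc => hD (hle.Dec (hd.le.Dec hc))
        have hns : v' ∉ σ.S ∪ σ.Dec := fun hc => hc.elim hn' hD0
        have hnk : v' ∉ (call G σ ω z σk w).S ∪ (call G σ ω z σk w).Dec := fun hc => hc.elim hn hD
        by_cases hz : G.zz v' ∈ (call G σ ω z σk w).S \ (call G σ ω z σk w).Lat
        · have e3 : l3 v' = G.zz v' := lam_zz hnk hz
          by_cases hz0 : G.zz v' ∈ σ.S
          · left
            rw [e3, hl1, lam_zz hns ⟨hz0, fun hc => hz.2 (Or.inl hc)⟩]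
          · right
            refine ⟨G.zz v', ?_, EnterAt.step hn (by rw [e3]; exact EnterAt.here (fun u => c3.t_le u) hz.1)⟩
            by_cases hz1 : G.zz v' ∈ σ1.S
            · left
              rw [hd.S] at hz1
              have h3 := hz1.resolve_left hz0
              exact ⟨h3, not_lt.1 fun hc => hz.2 (Or.inr ⟨h3, hc⟩)⟩
            · exact Or.inr ⟨hz.1, hz1⟩
        · left
          have hz0 : G.zz v' ∉ σ.S \ σ.Lat := fun hc => hz ⟨hle.S (hd.le.S hc.1), fun hd' =>
            hd'.elim hc.2 fun h3 => h3.1.2 hc.1⟩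
          rw [hl3, hl1, lam_coin hnk hz, lam_coin hns hz0]
    · rintro v' hv' ⟨u, ⟨hu1, hu2⟩, hu3⟩
      by_cases h3 : v' ∈ σ1.S
      · rw [hd.S] at h3
        rcases h3 with h3 | h3
        · exfalso
          refine hu1.2 (orb_closed (p := l1) (S := σ.S) (fun a ha => ?_) h3 hu3)
          rw [hl1, lam_SD (Or.inl ha)]
          exact hI.cl a ha
        · exact Or.inl ⟨h3, (Orb.t_le c1 hu3).trans hu2⟩
      · exact Or.inr ⟨hv', h3⟩
    · obtain ⟨u, a1, a2, a3⟩ := hh
      exact ⟨u, ⟨a1, a2⟩, a3⟩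
  obtain ⟨e, he, e1, e2, e3⟩ := key
  exact ⟨e, he, e1, e2, e3⟩

/-! ### The memory -/

omit [Fintype V] [DecidableEq V] in
theorem orb_congr {p q : V → V} (hp : Ch G p) {y : V} {c : ℕ} (hy : c < G.t y) (h : ∀ v, c < G.t v → p v = q v) (u : V) :
    Orb p y u ↔ Orb q y u := by
  have key : ∀ k, p^[k] y = q^[k] y := by
    intro k
    induction k with
    | zero => rfl
    | succ k ih =>
      rw [Function.iterate_succ_apply', Function.iterate_succ_apply', ← ih]
      exact h _ (hy.trans_le (hp.iter_mono y (Nat.zero_le k)))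
  constructor
  · rintro ⟨k, hk⟩
    exact ⟨k, by rw [← key]; exact hk⟩
  · rintro ⟨k, hk⟩
    exact ⟨k, by rw [key]; exact hk⟩

omit [Fintype V] [DecidableEq V] in
theorem suc_congr {σ : St V} {ω1 ω2 : V × Bool → Bool} (hp : Ch G (lam G σ ω1)) {y : V} {c : ℕ} (hy : c < G.t y)
    (h : ∀ v, c < G.t v → lam G σ ω1 v = lam G σ ω2 v) (F : Set V) : Suc G σ ω1 y F ↔ Suc G σ ω2 y F := by
  unfold Suc
  constructor
  · rintro ⟨e, h1, h2, h3, h4⟩
    exact ⟨e, h1, h2, (orb_congr hp hy h e).1 h3, fun u hu => h4 u ((orb_congr hp hy h u).2 hu)⟩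
  · rintro ⟨e, h1, h2, h3, h4⟩
    exact ⟨e, h1, h2, (orb_congr hp hy h e).2 h3, fun u hu => h4 u ((orb_congr hp hy h u).1 hu)⟩

omit [Fintype V] [DecidableEq V] in
theorem t_zz (G : Bars V) {v : V} (hv : G.inn v) : G.t v < G.t (G.zz v) := by
  rcases zz_or G v with h | h
  · rw [h]; exact G.t_lo hv
  · rw [h]; exact G.t_up hv

omit [Fintype V] [DecidableEq V] in
theorem mr_eq (hI : Inv G σ) (hm0 : ∀ c, m0 c ≠ some true) {v : V} (hv : OnB G σ ω z v) {κ : V × Bool}
    (hκ : G.t v < G.t κ.1) : mr G σ m0 ω z v κ = mem G σ m0 ω z v κ := by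
  classical
  have h1 := mem_ne_true hI hm0 hv hκ
  unfold mr
  split_ifs with h2
  · exact h2.1.symm
  · rcases h3 : mem G σ m0 ω z v κ with _ | b
    · rfl
    · cases b with
      | false => exact absurd ⟨h3, hκ⟩ h2
      | true => exact absurd h3 h1

/-- The restricted memory is as good as the memory (alpha). -/
theorem memA (h : Ctx G σ m0 ω z K Tm E) (hd : Dr G σ ω z σ1) {w : V} (hw : OnB G σ ω z w)
    (hs : Stg G σ ω z σ1 σk (G.t w)) {v : V} (hv : OnB G σ ω z v) {y : V} (hy : G.t v < G.t y)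
    (F : Set V) (ω' : V × Bool → Bool) :
    Suc G (call G σ ω z σk w) (ov (mem G σ m0 ω z v) ω') y F ↔
    Suc G (call G σ ω z σk w) (ov (mr G σ m0 ω z v) ω') y F := by
  have hk := hs.inv
  refine suc_congr (lam_ch (σ := call G σ ω z σk w) hk.bot_mem hk.top_mem hk.ch _) hy (fun v' hv' => ?_) F
  by_cases h1 : v' ∈ (call G σ ω z σk w).S ∪ (call G σ ω z σk w).Dec
  · rw [lam_SD h1, lam_SD h1]
  · by_cases h2 : G.zz v' ∈ (call G σ ω z σk w).S \ (call G σ ω z σk w).Lat
    · rw [lam_zz h1 h2, lam_zz h1 h2]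
    · rw [lam_coin h1 h2, lam_coin h1 h2]
      have hi : G.inn v' := ⟨fun e => h1 (Or.inl (e ▸ hk.bot_mem)), fun e => h1 (Or.inl (e ▸ hk.top_mem))⟩
      have h3 : G.t v < G.t (G.coin v').1 := hv'.trans (t_zz G hi)
      unfold ov
      rw [mr_eq h.inv h.m0t hv h3]

/-- The restricted memory is as good as the memory with the coin of `v` accepted (beta): `lo v` is fresh. -/
theorem memB (h : Ctx G σ m0 ω z K Tm E) (hd : Dr G σ ω z σ1) {w : V} (hw : OnB G σ ω z w)
    (hs : Stg G σ ω z σ1 σk (G.t w)) {v : V} (hv : obB G σ ω z v) (hvw : G.t v < G.t w) {y : V}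
    (hy : G.t v < G.t y) (F : Set V) (ω' : V × Bool → Bool) :
    Suc G (call G σ ω z σk w) (ov (memc G σ m0 ω z v true) ω') y F ↔
    Suc G (call G σ ω z σk w) (ov (mr G σ m0 ω z v) ω') y F := by
  classical
  have hk := hs.inv
  obtain ⟨⟨hv1, hv2, hv3⟩, _, hvz⟩ := hv
  refine suc_congr (lam_ch (σ := call G σ ω z σk w) hk.bot_mem hk.top_mem hk.ch _) hy (fun v' hv' => ?_) F
  by_cases h1 : v' ∈ (call G σ ω z σk w).S ∪ (call G σ ω z σk w).Dec
  · rw [lam_SD h1, lam_SD h1]
  · by_cases h2 : G.zz v' ∈ (call G σ ω z σk w).S \ (call G σ ω z σk w).Lat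
    · rw [lam_zz h1 h2, lam_zz h1 h2]
    · rw [lam_coin h1 h2, lam_coin h1 h2]
      have hi : G.inn v' := ⟨fun e => h1 (Or.inl (e ▸ hk.bot_mem)), fun e => h1 (Or.inl (e ▸ hk.top_mem))⟩
      have h3 : G.t v < G.t (G.coin v').1 := hv'.trans (t_zz G hi)
      have h4 : G.coin v' ≠ G.coin v := by
        intro e
        have e1 : G.zz v' = G.zz v := congrArg Prod.fst e
        have hx : OnB G σ ω z (G.lo v) := ⟨by
          have := Orb.step hv1.1
          rw [hv2] at this
          exact this, hv3⟩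
        have hxw := next_le h.inv hv1.1 hw.1 hvw
        rw [hv2] at hxw
        refine h2 ?_
        rw [e1, hvz]
        refine ⟨hs.le.S (by rw [hd.S]; exact Or.inr hx), ?_⟩
        rintro (h5 | h5)
        · exact hx.2 (h.inv.lat_sub h5)
        · exact absurd h5.2 (not_lt.2 hxw)
      unfold ov
      rw [mr_eq h.inv h.m0t hv1 h3]
      unfold memc
      rw [if_neg h4]

theorem pr_le {m m' : V × Bool → Option Bool} {A A' : (V × Bool → Bool) → Prop}
    (h : ∀ ω', A (ov m ω') → A' (ov m' ω')) : pr m A ≤ pr m' A' := by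
  classical
  unfold pr
  refine div_le_div_of_nonneg_right ?_ (by positivity)
  exact_mod_cast Finset.card_le_card fun ω' hω => by
    simp only [Finset.mem_filter, Finset.mem_univ, true_and] at hω ⊢
    exact h ω' hω

/-- `P_F(hits B_(≤w)) ≤ P_(m')(success of the call)`, alpha. -/
theorem cplA (h : Ctx G σ m0 ω z K Tm E) (hd : Dr G σ ω z σ1) {w : V} (hw : OnB G σ ω z w)
    (hs : Stg G σ ω z σ1 σk (G.t w)) {v : V} (hv : Dst G σ ω z v) (hx : G.inn (G.lo v))
    (hy : G.flh v ∉ σk.S) :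
    pr (mem G σ m0 ω z v) (fun ω' => ∃ u, OnB G σ ω z u ∧ G.t u ≤ G.t w ∧ Orb (lam G σ ω') (G.flh v) u) ≤
    pr (mr G σ m0 ω z v) (fun ω' => Suc G (call G σ ω z σk w) ω' (G.flh v) (tgt G σ ω z σ1 σk w)) := by
  have hI := h.inv
  have hvi : G.inn v := ⟨fun e => hv.1.2 (e ▸ hI.bot_mem), fun e => hv.1.2 (e ▸ hI.top_mem)⟩
  have hne : ({τ | G.t v < τ ∧ G.t (G.lo v) < G.t (G.ub (G.lo v) τ)} : Set ℕ).Nonempty :=
    ⟨G.t (G.lo v), G.t_lo hvi, G.t_up hx⟩
  have h1 := Nat.sInf_mem hne
  have h2 : G.tau1 v ≤ G.t (G.lo v) := Nat.sInf_le ⟨G.t_lo hvi, G.t_up hx⟩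
  have h3 : G.t v < G.tau1 v := h1.1
  have hN : G.tau1 v ≤ G.N := h2.trans (G.t_in _ hx.1 hx.2).le
  have h4 : G.t v < G.t (G.flh v) := h3.trans_le (G.ub_spec hx.2 hN).1.2
  refine pr_le fun ω' hh => ?_
  exact (memA h hd hw hs hv.1 h4 _ ω').1 (couple h hd hw hs hv h3 h2 hy _ hh)

omit [Fintype V] [DecidableEq V] in
theorem ub_lo' (G : Bars V) {v : V} (hv : G.inn v) : G.ub (G.lo v) (G.t v + 1) = G.up v := by
  let _ := G.ord
  have h1 := G.up_up hv
  have h2 := G.up_lo hv
  refine G.ub_unique ⟨h1.ay.1.trans (Nat.le_succ _), G.t_up hv⟩ (h2.lt.trans h1.lt) fun u' h3 h4 => ?_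
  have h5 : G.al u' (G.t v) := ⟨by have := G.nb u' v hv.1 hv.2; have := h3.1; omega, by have := h3.2; omega⟩
  have h6 : u' ≠ v := by
    rintro rfl
    have := h3.2
    omega
  by_contra hc
  rw [not_le] at hc
  rcases lt_trichotomy u' v with h7 | h7 | h7
  · exact h2.no u' h5 h4 h7
  · exact h6 h7
  · exact h1.no u' h5 h7 hc

/-- beta. -/
theorem cplB (h : Ctx G σ m0 ω z K Tm E) (hd : Dr G σ ω z σ1) {w : V} (hw : OnB G σ ω z w)
    (hs : Stg G σ ω z σ1 σk (G.t w)) {v : V} (hv : obB G σ ω z v) (hvw : G.t v < G.t w) {v' : V}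
    (hv' : G.inn v') (h1 : G.lo v' = G.lo v) (h2 : G.t v ≤ G.t v') (h3 : G.t v' + 1 < G.tau1 v)
    (hy : G.up v' ∉ σk.S) :
    pr (memc G σ m0 ω z v true)
      (fun ω' => ∃ u, OnB G σ ω z u ∧ G.t u ≤ G.t w ∧ Orb (lam G σ ω') (G.up v') u) ≤
    pr (mr G σ m0 ω z v) (fun ω' => Suc G (call G σ ω z σk w) ω' (G.up v') (tgt G σ ω z σ1 σk w)) := by
  have e : G.ub (G.lo v) (G.t v' + 1) = G.up v' := by rw [← h1]; exact ub_lo' G hv'
  have h4 : G.t v' + 1 ≤ G.t (G.lo v) := by rw [← h1]; exact G.t_lo hv'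
  rw [← e] at hy ⊢
  have h5 : G.t v < G.t (G.ub (G.lo v) (G.t v' + 1)) := by
    rw [e]
    exact lt_of_le_of_lt h2 (G.t_up hv')
  refine pr_le fun ω' hh => ?_
  exact (memB h hd hw hs hv hvw h5 _ ω').1 (couple h hd hw hs hv.1 (by omega) h4 hy _ hh)

end Pool.Agent.W_a4f561_h53
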