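import Pool.Agent.W_a4f561_h26.Def

/-!
MP_a4f561_co: the coupling L1 → L3, abstract induction (helper53).
-/

namespace Pool.Agent.W_a4f561_h53

open Pool.Agent.W_a4f561_h26

variable {V : Type}

theorem Orb.rfl' (p : V → V) (v : V) : Orb p v v := ⟨0, rfl⟩

theorem Orb.tail {p : V → V} {u v : V} (h : Orb p (p u) v) : Orb p u v := by
  obtain ⟨k, hk⟩ := h
  exact ⟨k + 1, by rw [Function.iterate_succ_apply, hk]⟩

theorem Orb.cases {p : V → V} {u v : V} (h : Orb p u v) : u = v ∨ Orb p (p u) v := by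
  obtain ⟨k, hk⟩ := h
  cases k with
  | zero => exact Or.inl hk
  | succ k => exact Or.inr ⟨k, by rw [← Function.iterate_succ_apply, hk]⟩

theorem Orb.trans' {p : V → V} {u v w : V} (h : Orb p u v) (h' : Orb p v w) : Orb p u w := by
  obtain ⟨k, hk⟩ := h
  obtain ⟨l, hl⟩ := h'
  exact ⟨l + k, by rw [Function.iterate_add_apply, hk, hl]⟩

/-- The orbit of `v` enters `S` at `e`. -/
def EnterAt (t : V → ℕ) (p : V → V) (S : Set V) (v e : V) : Prop :=
  e ∈ S ∧ Orb p v e ∧ ∀ u, Orb p v u → u ∈ S → t e ≤ t u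

theorem EnterAt.step {t : V → ℕ} {p : V → V} {S : Set V} {v e : V} (hv : v ∉ S) (h : EnterAt t p S (p v) e) :
    EnterAt t p S v e := by
  refine ⟨h.1, Orb.tail h.2.1, fun u hu huS => ?_⟩
  rcases Orb.cases hu with rfl | hu'
  · exact absurd huS hv
  · exact h.2.2 u hu' huS

theorem mono_orb {t : V → ℕ} {p : V → V} (ht : ∀ v, t v ≤ t (p v)) {u v : V} (h : Orb p u v) : t u ≤ t v := by
  obtain ⟨k, rfl⟩ := h
  induction k with
  | zero => exact le_rfl
  | succ k ih =>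
    rw [Function.iterate_succ_apply']
    exact ih.trans (ht _)

theorem EnterAt.here {t : V → ℕ} {p : V → V} {S : Set V} {v : V} (ht : ∀ v, t v ≤ t (p v)) (hv : v ∈ S) :
    EnterAt t p S v v :=
  ⟨hv, Orb.rfl' p v, fun _ hu _ => mono_orb ht hu⟩

/-- The abstract coupling. -/
theorem coup {t : V → ℕ} {B : ℕ} {l1 l3 : V → V} {S A E : Set V} {y : V}
    (hb : ∀ v, t v ≤ B) (hlt : ∀ v, v ∉ S → t v < t (l3 v)) (hle : ∀ v, t v ≤ t (l3 v)) (hA : A ⊆ S)
    (h : ∀ v, Orb l3 y v → v ∉ S → (∃ u ∈ A, Orb l1 v u) → l3 v = l1 v ∨ ∃ e ∈ E, EnterAt t l3 S v e)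
    (h2 : ∀ v ∈ S, (∃ u ∈ A, Orb l1 v u) → v ∈ E)
    (h1 : ∃ u ∈ A, Orb l1 y u) : ∃ e ∈ E, EnterAt t l3 S y e := by
  have key : ∀ k v, B - t v = k → Orb l3 y v → (∃ u ∈ A, Orb l1 v u) → ∃ e ∈ E, EnterAt t l3 S v e := by
    intro k
    induction k using Nat.strong_induction_on with
    | _ k ih =>
      intro v hk hv hu
      by_cases hS : v ∈ S
      · exact ⟨v, h2 v hS hu, EnterAt.here hle hS⟩
      · rcases h v hv hS hu with h3 | h3
        · obtain ⟨u, huA, hvu⟩ := hu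
          rcases Orb.cases hvu with rfl | hvu'
          · exact absurd (hA huA) hS
          · have h4 := hlt v hS
            have h5 := hb (l3 v)
            obtain ⟨e, he, he'⟩ := ih (B - t (l3 v)) (by omega) (l3 v) rfl
              (Orb.trans' hv ⟨1, rfl⟩) ⟨u, huA, by rw [h3]; exact hvu'⟩
            exact ⟨e, he, he'.step hS⟩
        · exact h3
  exact key _ y rfl (Orb.rfl' _ _) h1

end Pool.Agent.W_a4f561_h53
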