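import Pool.Agent.W_a4f561_E.Hst25
import Pool.Agent.W_a4f561_E.Nc33
import Pool.Agent.W_a4f561_h53.CoupAbs

/-!
MP_a4f561_co: the coupling (law of the path with memory) ≤ (law of the call), pointwise (helper53).
-/

set_option autoImplicit false

namespace Pool.Agent.W_a4f561_h53

open Pool.Agent.W_a4f561_h26 Pool.Agent.W_a4f561_E.Pk25

variable {V : Type}

/-! ### The law -/

theorem zz_or (G : Bars V) (v : V) : G.zz v = G.lo v ∨ G.zz v = G.up v := by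
  unfold Bars.zz
  split_ifs
  · exact Or.inr rfl
  · exact Or.inl rfl

theorem oo_or (G : Bars V) (v : V) : G.oo v = G.lo v ∨ G.oo v = G.up v := by
  unfold Bars.oo
  split_ifs
  · exact Or.inl rfl
  · exact Or.inr rfl

theorem lam_SD {G : Bars V} {σ : St V} {ω : V × Bool → Bool} {v : V} (h : v ∈ σ.S ∪ σ.Dec) :
    lam G σ ω v = σ.pi v := by
  unfold lam
  rw [if_pos h]

theorem lam_zz {G : Bars V} {σ : St V} {ω : V × Bool → Bool} {v : V} (h : v ∉ σ.S ∪ σ.Dec)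
    (h' : G.zz v ∈ σ.S \ σ.Lat) : lam G σ ω v = G.zz v := by
  unfold lam
  rw [if_neg h, if_pos h']

theorem lam_coin {G : Bars V} {σ : St V} {ω : V × Bool → Bool} {v : V} (h : v ∉ σ.S ∪ σ.Dec)
    (h' : G.zz v ∉ σ.S \ σ.Lat) : lam G σ ω v = if ω (G.coin v) = true then G.zz v else G.oo v := by
  unfold lam
  rw [if_neg h, if_neg h']

theorem lam_ch {G : Bars V} {σ : St V} (hb : G.bot ∈ σ.S) (ht : G.top ∈ σ.S) (hch : Ch G σ.pi)
    (ω : V × Bool → Bool) : Ch G (lam G σ ω) := by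
  refine ⟨?_, ?_, fun v hv => ?_⟩
  · rw [lam_SD (Or.inl hb)]
    exact hch.1
  · rw [lam_SD (Or.inl ht)]
    exact hch.2.1
  · by_cases h : v ∈ σ.S ∪ σ.Dec
    · rw [lam_SD h]
      exact hch.2.2 v hv
    · by_cases h' : G.zz v ∈ σ.S \ σ.Lat
      · rw [lam_zz h h']
        exact zz_or G v
      · rw [lam_coin h h']
        split_ifs
        · exact zz_or G v
        · exact oo_or G v

theorem orb_closed {p : V → V} {S : Set V} (hS : ∀ v ∈ S, p v ∈ S) {v u : V} (hv : v ∈ S) (h : Orb p v u) : u ∈ S := by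
  obtain ⟨k, rfl⟩ := h
  induction k with
  | zero => exact hv
  | succ k ih =>
    rw [Function.iterate_succ_apply']
    exact hS _ ih

theorem t_bdd (G : Bars V) (v : V) : G.t v ≤ G.N + 2 := by
  by_cases h1 : v = G.bot
  · rw [h1]; exact G.t_bot'
  · by_cases h2 : v = G.top
    · rw [h2]; exact G.t_top'
    · have := G.t_in v h1 h2
      omega

theorem lo_ne_up' (G : Bars V) {v : V} (hv : G.inn v) : G.lo v ≠ G.up v := by
  let _ := G.ord
  exact ((G.up_lo hv).lt.trans (G.up_up hv).lt).ne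

/-! ### Records -/

theorem ub_top (G : Bars V) (τ : ℕ) : G.ub G.top τ = G.top := by
  unfold Bars.ub
  rw [dif_neg]
  rintro ⟨u, _, h2, _⟩
  by_cases h : u = G.top
  · rw [h] at h2; exact lt_irrefl _ h2
  · exact lt_asymm h2 (G.r_top u h)

theorem IsRec.rec {G : Bars V} {σ : St V} {R : Pool.Agent.W_a4f561_h26.Rec V} (hch : Ch G σ.pi) (hR : IsRec G σ R)
    (hac : R.a < R.c) : @Pool.Agent.W_a4f561_E.Pk25.Rec V G.ord G.b G.t (host G σ.pi R.q) R.y R.a R.c := by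
  let _ := G.ord
  have hN := hR.cN
  have h1 : host G σ.pi R.q R.a ≠ G.top := by
    intro e
    have h2 := hR.ta
    have h3 := hR.ya
    rw [e, ub_top] at h2
    rw [e, ← h2] at h3
    exact lt_irrefl _ h3
  have h1' : host G σ.pi R.q R.c ≠ G.top := by
    intro e
    have h2 := hR.tc
    have h3 := hR.yc
    rw [e, ub_top] at h2
    rw [e, ← h2] at h3
    exact lt_irrefl _ h3
  exact ⟨hac, host_hp hch hR.b_le hN, G.up_of_ub h1 (hac.le.trans hN) (host_al25 hch (hac.le.trans hN) hR.b_le) hR.ta,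
    G.up_of_ub h1' hN (host_al25 hch hN (hR.b_le.trans hac.le)) hR.tc⟩

/-- (P2) for a record. -/
theorem rec_meets {G : Bars V} {σ : St V} {R : Pool.Agent.W_a4f561_h26.Rec V} (hch : Ch G σ.pi) (hR : IsRec G σ R)
    {ρ : V → V} (hρ : Ch G ρ) (hag : ∀ v ∈ σ.S ∪ σ.Dec, ρ v = σ.pi v) {u : V} (ha : R.a < G.t u)
    (hc : G.t u < R.c) (hin : G.r (host G σ.pi R.q (G.t u)) < G.r u) (hy : G.r u < G.r R.y) :
    ∃ τ, G.t u < τ ∧ τ ≤ R.c ∧ host G ρ u τ = host G σ.pi R.q τ := by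
  let _ := G.ord
  have hN := hR.cN
  have hself : host G ρ u (G.t u) = u := host_self25 hρ (by omega) le_rfl
  refine p2_33 G.t_inj (IsRec.rec hch hR (ha.trans hc)) ha.le hc.le (host_hp hρ (G.bt u) hN) ?_ ?_
  · rw [Ins, hself]
    exact ⟨hin, hy⟩
  · intro s h1 h2 h3 h4 h5 h6
    set u' := host G ρ u s with hu'
    have hinn : G.inn u' := G.inn_of_t (τ := R.c) (by omega) hN
    have hup : G.up u' = R.y := by
      have := G.ub_of_up h5
      rw [h3] at this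
      exact this
    have h7 := hR.dec u' hinn (by omega) (by omega) (by rw [← h3]; exact h4.1) hup
    rcases host_succ hρ (u := u) (τ := s) (by omega) with h8 | h8
    · have h9 : s < G.t u' := h8.1
      have h10 : s = G.t u' := h3
      omega
    · rw [h8.2.1, ← hu', hag _ h7.1, h7.2] at h6
      exact lo_ne_up' G hinn (h6.trans hup.symm)

/-- (P4), (P6) for a record over a lower neighbour which is drawn before. -/
theorem rec_out {G : Bars V} {σ : St V} {R : Pool.Agent.W_a4f561_h26.Rec V} (hch : Ch G σ.pi)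
    (hcl : ∀ v ∈ σ.S, σ.pi v ∈ σ.S) (hR : IsRec G σ R)
    {ρ : V → V} (hρ : Ch G ρ) {x y : V} {τ0 θ : ℕ} (hx : x ∈ R.S) (hxa : G.al x τ0)
    (hxy : @Up V G.ord G.b G.t τ0 x y) (hb : G.b y ≤ τ0) (ht : τ0 ≤ G.t y) (hθ : τ0 ≤ θ)
    (hav : ∀ τ, G.b y ≤ τ → τ ≤ θ → host G ρ y τ ∉ σ.S) (ha : R.a < θ) (hc : θ < R.c)
    (h1 : G.r (host G σ.pi R.q θ) < G.r (host G ρ y θ)) (h2 : G.r (host G ρ y θ) < G.r R.y) : False := by
  let _ := G.ord
  have hN := hR.cN
  have hrec := IsRec.rec hch hR (ha.trans hc)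
  have hne : ∀ τ, G.b y ≤ τ → R.a ≤ τ → τ ≤ θ → host G ρ y τ ≠ host G σ.pi R.q τ := by
    intro τ h3 _ h5 h6
    exact hav τ h3 h5 (by rw [h6]; exact host_mem hch hcl hR.q_mem (by omega))
  obtain ⟨h3, h4⟩ := started G.t_inj hrec (host_hp hρ (u := y) (a := G.b y) (c := θ) le_rfl (by omega))
    (hb.trans hθ) ha.le hc.le hne ⟨h1, h2⟩
  have h5 := h4 τ0 hb hθ
  have h6 : host G ρ y τ0 = y := host_self25 hρ (by omega) ht
  rw [Ins, h6] at h5
  have h7 : Al G.b G.t τ0 (host G σ.pi R.q τ0) := hrec.hp.al τ0 (by omega) (by omega)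
  rcases p6_33 h7 h5 hxy with h8 | h8
  · exact hR.hostS τ0 (by omega) (by omega) (by rw [← h8]; exact hx)
  · have h9 := hR.reg x hx τ0 (by omega) (by omega) hxa h8.1
    exact absurd h8.2 (not_lt.2 h9)

/-- (P4), (P6) for a record below, over a barrier. -/
theorem rec_out' {G : Bars V} {σ : St V} {R : Pool.Agent.W_a4f561_h26.Rec V} (hch : Ch G σ.pi)
    (hcl : ∀ v ∈ σ.S, σ.pi v ∈ σ.S) (hR : IsRec G.mir σ R)
    {ρ : V → V} (hρ : Ch G ρ) {v x y : V} {τ0 θ : ℕ} (hv : v ∈ R.S) (hvx : σ.pi v = x) (hvt : G.t v < τ0)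
    (hx : x ∈ R.S) (hxa : G.al x τ0)
    (hxy : @Up V G.ord G.b G.t τ0 x y) (hb : G.b y ≤ τ0) (ht : τ0 ≤ G.t y) (hθ : τ0 ≤ θ)
    (hav : ∀ τ, G.b y ≤ τ → τ ≤ θ → host G ρ y τ ∉ σ.S) (ha : R.a < θ) (hc : θ < R.c)
    (h1 : G.mir.r (host G σ.pi R.q θ) < G.mir.r (host G ρ y θ)) (h2 : G.mir.r (host G ρ y θ) < G.mir.r R.y) :
    False := by
  have hN : R.c ≤ G.N := hR.cN
  have hrec := IsRec.rec (G := G.mir) hch.mir25 hR (ha.trans hc)
  have hne : ∀ τ, G.b y ≤ τ → R.a ≤ τ → τ ≤ θ → host G ρ y τ ≠ host G σ.pi R.q τ := by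
    intro τ h3 _ h5 h6
    exact hav τ h3 h5 (by rw [h6]; exact host_mem hch hcl hR.q_mem (by omega))
  obtain ⟨h3, h4⟩ := @started V G.mir.ord G.b G.t G.t_inj _ _ _ _ _ _ _ hrec
    (host_hp (G := G.mir) hρ.mir25 (u := y) (a := G.b y) (c := θ) le_rfl (by show θ ≤ G.N; omega))
    (hb.trans hθ) ha.le hc.le hne ⟨h1, h2⟩
  have h5 : G.mir.r (host G σ.pi R.q τ0) < G.mir.r (host G ρ y τ0) ∧ G.mir.r (host G ρ y τ0) < G.mir.r R.y :=
    h4 τ0 hb hθ
  have h6 : host G ρ y τ0 = y := host_self25 hρ (by omega) ht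
  rw [h6, G.mir_lt, G.mir_lt] at h5
  let _ := G.ord
  have h7 : Al G.b G.t τ0 R.y := ⟨hR.y_b.trans (by omega), by have : R.c < G.t R.y := hR.y_t; omega⟩
  rcases p6'_33 h7 ⟨h5.2, h5.1⟩ hxy with h8 | h8
  · have h9 := hR.att (by rw [← h8]; exact hx) v hv (by rw [hvx, h8])
    have h10 : R.c ≤ G.t v := h9
    omega
  · have h9 : G.mir.r R.y ≤ G.mir.r x :=
      hR.reg x hx τ0 (by omega) (by omega) hxa ((G.mir_lt).2 h8.2)
    exact absurd h8.1 (not_lt.2 ((G.mir_le).1 h9))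

end Pool.Agent.W_a4f561_h53
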