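import Pool.Agent.W_a4f561_h53.Cpl53

/-!
MP_a4f561_co: the coupling (law of the path with memory) ≤ (law of the call), pointwise (helper53).
-/

set_option autoImplicit false

namespace Pool.Agent.W_a4f561_h53

open Pool.Agent.W_a4f561_h26 Pool.Agent.W_a4f561_E.Pk25

variable {V : Type} {G : Bars V} {σ σ1 σk : St V} {m0 : V × Bool → Option Bool} {ω : V × Bool → Bool} {z : V}

/-- First entrance. -/
theorem exists_enter {p : V → V} (hp : Ch G p) {S : Set V} {v s : V} (hs : s ∈ S) (h : Orb p v s) :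
    ∃ e, EnterAt G.t p S v e ∧ Orb p e s := by
  classical
  obtain ⟨k, hk⟩ := h
  have hex : ∃ j, p^[j] v ∈ S := ⟨k, by rw [hk]; exact hs⟩
  refine ⟨p^[Nat.find hex] v, ⟨Nat.find_spec hex, ⟨_, rfl⟩, ?_⟩, ?_⟩
  · rintro u ⟨i, rfl⟩ hi
    exact hp.iter_mono v (Nat.find_min' hex hi)
  · have h1 : Nat.find hex ≤ k := Nat.find_min' hex (by rw [hk]; exact hs)
    refine ⟨k - Nat.find hex, ?_⟩
    rw [← Function.iterate_add_apply, ← hk]
    congr 1
    omega

/-- The facts on the drawn path. -/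
theorem pi_orb (hD : Dr G σ ω z σ1) (hle : Le σ1 σk) {u : V} (hu : Orb (lam G σ ω) z u) :
    σk.pi u = lam G σ ω u := by
  by_cases h : u ∈ σ.S
  · rw [lam_SD (Or.inl h), ← hD.le.pi u (Or.inl h)]
    exact hle.pi u (Or.inl (hD.le.S h))
  · rw [hle.pi u (Or.inl (by rw [hD.S]; exact Or.inr ⟨hu, h⟩))]
    exact hD.pi u ⟨hu, h⟩

theorem host_path (hI : Inv G σ) (hD : Dr G σ ω z σ1) (hle : Le σ1 σk) (hk : Ch G σk.pi) {τ : ℕ} (hτ : τ ≤ G.N) :
    host G σk.pi z τ = host G (lam G σ ω) z τ :=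
  host_congr25 (lam_ch hI.bot_mem hI.top_mem hI.ch ω) hk hτ fun _ h1 _ => pi_orb hD hle h1

theorem next_le (hI : Inv G σ) {u w : V} (hu : Orb (lam G σ ω) z u) (hw : Orb (lam G σ ω) z w) (h : G.t u < G.t w) :
    G.t (lam G σ ω u) ≤ G.t w := by
  have hch := lam_ch hI.bot_mem hI.top_mem hI.ch ω
  rcases Orb.cmp hu hw with h1 | h1
  · rcases Orb.cases h1 with rfl | h2
    · exact absurd h (lt_irrefl _)
    · exact Orb.t_le hch h2
  · have := Orb.t_le hch h1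
    omega

theorem host_le {p : V → V} (hp : Ch G p) {w : V} {τ : ℕ} (hτ : τ ≤ G.N) (hw : Orb p z w) (h : τ ≤ G.t w) :
    G.t (host G p z τ) ≤ G.t w := by
  obtain ⟨k, h1, h2, _⟩ := host_exists hp z hτ
  obtain ⟨j, rfl⟩ := hw
  rw [h1]
  refine hp.iter_mono z ?_
  by_contra hc
  have := h2 j (by omega)
  omega

/-- The new law sends a vertex of a pocket of the path to the target. -/
theorem pocket_enter (hI : Inv G σ) (hD : Dr G σ ω z σ1) (hle : Le σ1 σk) (hk : Inv G σk) {w v' : V} {l3 : V → V}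
    (hl3 : Ch G l3) (hag : ∀ u ∈ σk.S, l3 u = σk.pi u) (hw : OnB G σ ω z w) {τ : ℕ} (hτ : τ ≤ G.N)
    (hτw : τ ≤ G.t w) (hm : host G l3 v' τ = host G σk.pi z τ) (hns : host G σk.pi z τ ∉ σ.S) :
    ∃ e ∈ tgt G σ ω z σ1 σk w, EnterAt G.t l3 σk.S v' e := by
  have hch := lam_ch hI.bot_mem hI.top_mem hI.ch ω
  have h1 : host G σk.pi z τ = host G (lam G σ ω) z τ := host_path hI hD hle hk.ch hτ
  have h2 : OnB G σ ω z (host G σk.pi z τ) := ⟨by rw [h1]; exact host_orb25 hch z hτ, hns⟩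
  have h3 : G.t (host G σk.pi z τ) ≤ G.t w := by rw [h1]; exact host_le hch hτ hw.1 hτw
  have h4 : host G σk.pi z τ ∈ σk.S := hle.S (by rw [hD.S]; exact Or.inr h2)
  obtain ⟨e, he, hes⟩ := exists_enter hl3 h4 (by rw [← hm]; exact host_orb25 hl3 v' hτ)
  refine ⟨e, ?_, he⟩
  have h5 : ∀ u ∈ σ.S, l3 u ∈ σ.S := by
    intro u hu
    rw [hag u (hle.S (hD.le.S hu)), hle.pi u (Or.inl (hD.le.S hu)), hD.le.pi u (Or.inl hu)]
    exact hI.cl u hu
  by_cases h6 : e ∈ σ1.S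
  · rw [hD.S] at h6
    rcases h6 with h6 | h6
    · exact absurd (orb_closed h5 h6 hes) hns
    · exact Or.inl ⟨h6, (Orb.t_le hl3 hes).trans h3⟩
  · exact Or.inr ⟨he.1, h6⟩

/-- The memory of the call. -/
theorem mem_ne_true (hI : Inv G σ) (hm0 : ∀ c, m0 c ≠ some true) {v : V} (hv : OnB G σ ω z v) {κ : V × Bool}
    (hκ : G.t v < G.t κ.1) : mem G σ m0 ω z v κ ≠ some true := by
  classical
  unfold mem
  split_ifs with h
  · obtain ⟨u, h1, h2, h3, h4⟩ := h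
    intro h5
    have h6 : ω κ = true := by simpa using h5
    have h7 : lam G σ ω u = κ.1 := by
      rw [lam_coin (fun hc => hc.elim h3.1 h3.2.1) h3.2.2, h4, h6, if_pos rfl, ← h4]
      rfl
    have h8 := next_le hI h1.1 hv.1 h2
    rw [h7] at h8
    omega
  · exact hm0 κ

end Pool.Agent.W_a4f561_h53
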