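import Pool.Agent.W_a4f561_h26.Cpl
import Pool.Agent.W_a4f561_h26.Trk
import Pool.Agent.W_a4f561_E.Tr2

/-!
MP_a4f561_co (EpsPages): processing a beta-event (the loop over the exposed short heads). helper53.
-/

set_option autoImplicit false
set_option linter.unusedSectionVars false

namespace Pool.Agent.W_a4f561_EvB53

open Pool.Agent.W_a4f561_h26

section Pure

variable {V : Type}

theorem orb_head {π : V → V} {u v : V} (h : Orb π u v) : u = v ∨ Orb π (π u) v := by
  obtain ⟨k, hk⟩ := h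
  cases k with
  | zero => exact Or.inl hk
  | succ k => exact Or.inr ⟨k, by rwa [Function.iterate_succ_apply] at hk⟩

theorem orb_mem {π : V → V} {S : Set V} (hS : ∀ v ∈ S, π v ∈ S) {u w : V} (hu : u ∈ S)
    (h : Orb π u w) : w ∈ S := by
  obtain ⟨k, rfl⟩ := h
  induction k with
  | zero => exact hu
  | succ k ih =>
    rw [Function.iterate_succ_apply']
    exact hS _ ih

theorem orb_congr {π ρ : V → V} {S : Set V} (hS : ∀ v ∈ S, π v ∈ S) (h : ∀ v ∈ S, ρ v = π v) {u w : V}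
    (hu : u ∈ S) (ho : Orb π u w) : Orb ρ u w := by
  obtain ⟨k, rfl⟩ := ho
  refine ⟨k, ?_⟩
  have key : ∀ n, ρ^[n] u = π^[n] u ∧ π^[n] u ∈ S := by
    intro n
    induction n with
    | zero => exact ⟨rfl, hu⟩
    | succ n ih =>
      rw [Function.iterate_succ_apply', Function.iterate_succ_apply', ih.1]
      exact ⟨h _ ih.2, hS _ ih.2⟩
  exact (key k).1

theorem dl_pos (K : ℕ) : 0 < dl K := by
  unfold dl
  positivity

theorem pr_pos [Fintype V] [DecidableEq V] {m : V × Bool → Option Bool} {A : (V × Bool → Bool) → Prop}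
    (h : 0 < pr m A) : ∃ ω', A (ov m ω') := by
  classical
  by_contra hc
  push Not at hc
  unfold pr at h
  rw [Finset.filter_eq_empty_iff.2 (fun ω' _ => hc ω')] at h
  simp at h

theorem lam_S {G : Bars V} {σ : St V} (ω : V × Bool → Bool) {v : V} (hv : v ∈ σ.S) : lam G σ ω v = σ.pi v := by
  unfold lam
  exact if_pos (Set.mem_union_left _ hv)

theorem lam_cl {G : Bars V} {σ : St V} (hI : Inv G σ) (ω : V × Bool → Bool) : ∀ v ∈ σ.S, lam G σ ω v ∈ σ.S := by
  intro v hv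
  rw [lam_S ω hv]
  exact hI.cl v hv

end Pure

variable {V : Type} {G : Bars V}
  {σ σ1 σk : St V} {m0 : V × Bool → Option Bool} {ω : V × Bool → Bool} {z : V} {K Tm T C m B : ℕ} {E : Set V}

theorem onB_inn (hI : Inv G σ) {v : V} (hv : OnB G σ ω z v) : G.inn v :=
  ⟨fun e => hv.2 (by rw [e]; exact hI.bot_mem), fun e => hv.2 (by rw [e]; exact hI.top_mem)⟩

/-- A later vertex of the path is on the route of the next vertex. -/
theorem onB_next (hI : Inv G σ) {v w : V} (hv : OnB G σ ω z v) (hw : OnB G σ ω z w) (hvw : G.t v < G.t w) :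
    Orb (lam G σ ω) (lam G σ ω v) w := by
  rcases orb_head (orb_comp (ch_lam hI ω) hv.1 hw.1 hvw.le) with e | h
  · rw [e] at hvw
    exact absurd hvw (lt_irrefl _)
  · exact h

theorem orb_path (hI : Inv G σ) {π : V → V} (hπB : ∀ b, OnB G σ ω z b → π b = lam G σ ω b) {x u : V}
    (hx : OnB G σ ω z x) (hu : OnB G σ ω z u) (h : Orb (lam G σ ω) x u) : Orb π x u := by
  obtain ⟨k, hk⟩ := h
  induction k generalizing x with
  | zero => exact ⟨0, hk⟩
  | succ k ih =>
    rw [Function.iterate_succ_apply] at hk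
    have h1 : OnB G σ ω z (lam G σ ω x) := by
      refine ⟨orb_step hx.1, fun hS => hu.2 ?_⟩
      exact orb_mem (lam_cl hI ω) hS ⟨k, hk⟩
    have h2 := ih h1 hk
    rw [← hπB x hx] at h2
    exact orb_trans (orb_step (orb_refl π x)) h2

/-- The next vertex of a D-step. -/
theorem lo_onB {v : V} (hv : Dst G σ ω z v) : OnB G σ ω z (G.lo v) :=
  ⟨by rw [← hv.2.1]; exact orb_step hv.1.1, hv.2.2⟩

/-- `v'` exposes a short head of the D-step `v → lo v`. -/
structure Ex (G : Bars V) (v v' : V) : Prop where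
  inn : G.inn v'
  lo : G.lo v' = G.lo v
  le : G.t v ≤ G.t v'
  lt : G.t v' + 1 < G.tau1 v

theorem ex_short {v : V} (hv : G.inn v) (hx : G.inn (G.lo v)) {v' : V} (he : Ex G v v') :
    G.t (G.up v') < G.t (G.lo v) := by
  obtain ⟨h1, h2, h3, h4, h5, h6⟩ := tau1_spec G hv hx
  have h7 := h5 (G.t v' + 1) (by have := he.le; omega) he.lt
  rw [← he.lo, ub_lo G he.inn, he.lo] at h7
  exact h7

/-- SQUEEZE: a head which is seen after the death of `v'` is between the path and the route of `up v'`. -/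
theorem squeeze (hI : Inv G σ) {π : V → V} (hπ : Ch G π) (hπB : ∀ b, OnB G σ ω z b → π b = lam G σ ω b)
    {v v' u : V} (hv : Dst G σ ω z v) (he : Ex G v v') (hu : OnB G σ ω z u) (hy : Orb π (G.up v') u) {τ : ℕ}
    (h1 : G.t v' < τ) (h2 : τ < G.tau1 v) (hne : host G π (G.up v') τ ≠ G.lo v) :
    Orb π (G.ub (G.lo v) τ) u := by
  have hvi := onB_inn hI hv.1
  have hxB := lo_onB hv
  have hxi := onB_inn hI hxB
  have hui := onB_inn hI hu
  obtain ⟨t1, t2, t3, t4, t5, t6⟩ := tau1_spec G hvi hxi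
  have hxN : G.t (G.lo v) < G.N := G.t_in _ hxi.1 hxi.2
  have huN : G.t u < G.N := G.t_in _ hui.1 hui.2
  have hbx : G.b (G.lo v) ≤ G.t v := (al_lo G hvi).1.1
  have hyal := (al_up G he.inn).2
  have hle := he.le
  have hty := t_up G he.inn
  have hxy : G.r (G.lo v) < G.r (G.up v') := by
    have k1 := r_up G he.inn
    have k2 := r_lo G he.inn
    rw [he.lo] at k2
    omega
  have hyself : host G π (G.up v') (G.t v' + 1) = G.up v' := host_self hπ (by omega)
  have hxh : G.r (G.lo v) ≤ G.r (host G π (G.up v') τ) :=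
    (order_bar hπ (u := G.up v') (y := G.lo v) (τ1 := G.t v' + 1) (τ2 := τ) hyal.1 (by omega) (by omega)
      (by omega) (by omega)).2.1 (by rw [hyself]; exact hxy)
  have hxh' : G.r (G.lo v) < G.r (host G π (G.up v') τ) :=
    lt_of_le_of_ne hxh fun e => hne (G.r_inj e).symm
  have hyb : G.b (G.up v') ≤ τ := by have := hyal.1; omega
  have hal := host_al hπ (u := G.up v') hyb (by omega : τ ≤ G.N)
  obtain ⟨s1, s2, s3⟩ := ub_spec G (x := G.lo v) (τ := τ) (by omega) hxi.2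
  have hle' := s3 _ hal hxh'
  have htu : G.t (G.up v') ≤ G.t u := orb_t hπ hy
  have hxu : Orb π (G.lo v) u := by
    have k1 := onB_next hI hv.1 hu (by omega)
    rw [hv.2.1] at k1
    exact orb_path hI hπB hxB hu k1
  have htxu : G.t (G.lo v) ≤ G.t u := orb_t hπ hxu
  have e1 : host G π (G.lo v) (G.t u) = u := host_t hπ hxu hui
  have e2 : host G π (G.up v') (G.t u) = u := host_t hπ hy hui
  have e3 : host G π (G.lo v) τ = G.lo v := host_self hπ (by omega)
  have e4 : host G π (G.ub (G.lo v) τ) τ = G.ub (G.lo v) τ := host_self hπ s1.2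
  have o1 := order_one hπ (u := G.lo v) (v := G.ub (G.lo v) τ) (τ1 := τ) (τ2 := G.t u) (by omega) s1.1
    (by omega) huN.le (by rw [e3, e4]; exact s2.le)
  have o2 := order_one hπ (u := G.ub (G.lo v) τ) (v := G.up v') (τ1 := τ) (τ2 := G.t u) s1.1 hyb
    (by omega) huN.le (by rw [e4]; exact hle')
  rw [e1] at o1
  rw [e2] at o2
  have e5 : host G π (G.ub (G.lo v) τ) (G.t u) = u := G.r_inj (le_antisymm o2 o1)
  rw [← e5]
  exact host_orb G π _ _

variable [Fintype V] [DecidableEq V]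

theorem fin_le {σk' : St V} {π : V → V} (hle : Le σk σk') (h : Fin' G σk' π) : Fin' G σk π := by
  refine ⟨h.1, fun v hv => ?_⟩
  rw [h.2 v (hv.imp (fun k => hle.S k) (fun k => hle.Dec k)), hle.pi v hv]

theorem fin_path (hd : Dr G σ ω z σ1) (hle : Le σ1 σk) {π : V → V} (h : Fin' G σk π) :
    ∀ b, OnB G σ ω z b → π b = lam G σ ω b := by
  intro b hb
  have h1 : b ∈ σ1.S := by
    rw [hd.S]
    exact Or.inr hb
  rw [h.2 b (Or.inl (hle.S h1)), hle.pi b (Or.inl h1), hd.pi b hb]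

theorem tr_mono {δ : ℝ} {idx : V → ℕ} {q : ℕ} {ev : ℕ → Bool × Bool × V} {dt : ℕ → V} {T' : ℕ}
    (hT : Tr G σ m0 ω z δ σ1 σk C T idx q ev dt) (h : T ≤ T') : Tr G σ m0 ω z δ σ1 σk C T' idx q ev dt :=
  { hT with
    stg := stg_mono hT.stg h
    dT := fun i hi => (hT.dT i hi).trans h }

/-- Exposed short heads are not in `S`. -/
theorem ex_notS (h : Ctx G σ m0 ω z K Tm E) {v w v' : V} (hv : dlB G σ m0 ω z (dl K) v w) (he : Ex G v v') :
    G.up v' ∉ σ.S := by
  intro hS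
  obtain ⟨h1, h2, h3, h4, h5⟩ := hv
  have h6 := clB h h1 h2 h3 he.inn he.lo he.le he.lt (lt_of_lt_of_le (dl_pos K) h4)
  obtain ⟨ω', u, k1, k2, k3⟩ := pr_pos (lt_of_lt_of_le (lt_of_lt_of_le (dl_pos K) h4) h6)
  exact k1.2 (orb_mem (lam_cl h.inv _) hS k3)

/-- `lo v` dies before the deadline. -/
theorem lo_le (h : Ctx G σ m0 ω z K Tm E) {v w : V} (hv : dlB G σ m0 ω z (dl K) v w) :
    G.t (G.lo v) ≤ G.t w := by
  obtain ⟨h1, h2, h3, h4, h5⟩ := hv
  have k := onB_next h.inv h1.1.1 h2 h3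
  rw [h1.1.2.1] at k
  exact orb_t (ch_lam h.inv ω) k

/-- An exposed head in the drawn set hits the path before the deadline. -/
theorem ex_hit (h : Ctx G σ m0 ω z K Tm E) (hd : Dr G σ ω z σ1) {v w v' : V}
    (hv : dlB G σ m0 ω z (dl K) v w) (he : Ex G v v') (hs : Stg G σ ω z σ1 σk (G.t w)) (hy : G.up v' ∈ σk.S) :
    ∃ u, OnB G σ ω z u ∧ G.t u ≤ G.t w ∧ Orb σk.pi (G.up v') u := by
  by_cases h1 : G.up v' ∈ σ1.S
  · rw [hd.S] at h1
    rcases h1 with h1 | h1
    · exact absurd h1 (ex_notS h hv he)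
    · have h2 := ex_short (onB_inn h.inv hv.1.1.1) (onB_inn h.inv (lo_onB hv.1.1)) he
      exact ⟨_, h1, h2.le.trans (lo_le h hv), orb_refl _ _⟩
  · exact hs.hit _ ⟨hy, h1⟩

/-- One call of EXTEND for the head `up v'` (no call if it is drawn already). -/
theorem one (hE : EXT G B (dl K) (m + 2 * (K + 1)) C) (h : Ctx G σ m0 ω z K Tm E)
    (hm : Set.ncard {c | m0 c ≠ none} ≤ m) (hd : Dr G σ ω z σ1) {idx : V → ℕ} {q : ℕ}
    {ev : ℕ → Bool × Bool × V} {dt : ℕ → V} (hT : Tr G σ m0 ω z (dl K) σ1 σk C T idx q ev dt)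
    {v w : V} (hv : dlB G σ m0 ω z (dl K) v w) (hb : blk B (G.t v) (G.t w)) (hTw : T ≤ G.t w)
    {v' : V} (he : Ex G v v')
    (hn : ∀ i, i < q → ev i = (false, true, v) → ∀ u ∈ σk.S \ σ1.S, idx u = i → G.t u ≤ G.t v') :
    ∃ σk' idx' q' ev', ∃ dt' : ℕ → V, Le σk σk' ∧ Tr G σ m0 ω z (dl K) σ1 σk' C (G.t w) idx' q' ev' dt' ∧
      (∀ i, i < q' → (∃ j, j < q ∧ ev' i = ev j) ∨ ev' i = (false, true, v)) ∧ G.up v' ∈ σk'.S ∧
      ∀ v'', Orb σk'.pi (G.up v') v'' → σk'.pi v'' = G.lo v →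
        ∀ i, i < q' → ev' i = (false, true, v) → ∀ u ∈ σk'.S \ σ1.S, idx' u = i → G.t u ≤ G.t v'' := by
  have hty := t_up G he.inn
  by_cases hy : G.up v' ∈ σk.S
  · refine ⟨σk, idx, q, ev, dt, ⟨subset_rfl, subset_rfl, fun _ _ => rfl, subset_rfl, subset_rfl⟩,
      tr_mono hT hTw, fun i hi => Or.inl ⟨i, hi, rfl⟩, hy, ?_⟩
    intro v'' k1 _ i hi hev u hu hui
    have k2 := hn i hi hev u hu hui
    have k3 := orb_t hT.stg.inv.ch k1
    omega
  · have hs := stg_mono hT.stg hTw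
    obtain ⟨h1, h2, h3, h4, h5⟩ := id hv
    have hκ := h4.trans ((clB h h1 h2 h3 he.inn he.lo he.le he.lt (lt_of_lt_of_le (dl_pos K) h4)).trans
      (cplB h hd h2 hs h1 h3 he.inn he.lo he.le he.lt hy))
    have hbl : blk B (G.t v') (G.t w) := by
      obtain ⟨c, c1, c2⟩ := hb
      exact ⟨c, c1.trans he.le, c2⟩
    obtain ⟨σ', hr⟩ := hE (call G σ ω z σk w) (G.t v') (G.t w) (G.up v') (mr G σ m0 ω z v) (tgt G σ ω z σ1 σk w)
      (call_inv h hd h2 hs) (call_lt h hd h2 hs) hy hty hbl (tgt_sub h hd h2 hs).1 (tgt_sub h hd h2 hs).2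
      (mr_true h v) (mr_card h h1.1.1 hm) hκ
    have hr' : Res G (call G σ ω z σk w) σ' (G.t ((false, true, v) : Bool × Bool × V).2.2) (G.t w) (G.up v')
        (tgt G σ ω z σ1 σk w) C :=
      { hr with time := fun u hu => ⟨lt_of_le_of_lt he.le (hr.time u hu).1, (hr.time u hu).2⟩ }
    obtain ⟨idx', ev', dt', r1, r2, r3, r4, r5⟩ := W_a4f561_E.Tr2.tr_add h hd hT
      (e := (false, true, v)) (w := w) hv hTw hr' (by
        intro i hi hev u hu hui
        have k1 := hn i hi hev u hu hui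
        exact ⟨lt_of_le_of_lt k1 hty, fun u' hu' => lt_of_le_of_lt k1 (hr.time u' hu').1⟩)
    have hle := (stg_next h hd h2 hs hr).2
    refine ⟨σ'.setLat σ.Lat, idx', q + 1, ev', dt', hle, r1, ?_, hr.start, ?_⟩
    · intro i hi
      rcases Nat.lt_or_ge i q with h6 | h6
      · exact Or.inl ⟨i, h6, r3 i h6⟩
      · obtain rfl : i = q := by omega
        exact Or.inr r4
    · intro v'' k1 k2 i hi hev u hu hui
      have k1' : Orb σ'.pi (G.up v') v'' := k1
      have k2' : σ'.pi v'' = G.lo v := k2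
      have k3 := orb_t hr.inv.ch k1'
      by_cases h6 : u ∈ σk.S
      · have h7 : u ∈ σk.S \ σ1.S := ⟨h6, hu.2⟩
        rw [r2 u h7] at hui
        have h8 := hT.lt u h7
        rw [hui] at h8
        have h9 := hn i h8 (by rw [← r3 i h8]; exact hev) u h7 hui
        omega
      · obtain ⟨a, a1, a2, a3⟩ := hr.exit
        have h7 := orb_t hr.inv.ch (a3 u ⟨hu.1, h6⟩)
        have h8 := a3 (G.up v') ⟨hr.start, hy⟩
        rcases le_or_gt (G.t a) (G.t v'') with h9 | h9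
        · omega
        · exfalso
          rcases orb_head (orb_comp hr.inv.ch k1' h8 h9.le) with e | h10
          · rw [e] at h9
            exact lt_irrefl _ h9
          · rw [k2'] at h10
            have hx : G.lo v ∈ σk.S := hT.stg.le.S (by rw [hd.S]; exact Or.inr (lo_onB h1.1))
            refine a1.2 (orb_mem (S := σk.S) ?_ hx h10)
            intro y hy
            rw [show σ'.pi y = σk.pi y from hle.pi y (Or.inl hy)]
            exact hs.inv.cl y hy

/-- The loop. -/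
theorem loop (hE : EXT G B (dl K) (m + 2 * (K + 1)) C) (h : Ctx G σ m0 ω z K Tm E)
    (hm : Set.ncard {c | m0 c ≠ none} ≤ m) (hd : Dr G σ ω z σ1)
    {v w : V} (hv : dlB G σ m0 ω z (dl K) v w) (hb : blk B (G.t v) (G.t w)) :
    ∀ (n : ℕ) (v' : V) (σk : St V) (T : ℕ) (idx : V → ℕ) (q : ℕ) (ev : ℕ → Bool × Bool × V) (dt : ℕ → V),
    G.tau1 v - G.t v' ≤ n → Tr G σ m0 ω z (dl K) σ1 σk C T idx q ev dt → T ≤ G.t w → Ex G v v' →
    (∀ i, i < q → ev i = (false, true, v) → ∀ u ∈ σk.S \ σ1.S, idx u = i → G.t u ≤ G.t v') →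
    (∀ π, Fin' G σk π → ∀ τ, G.t v < τ → τ ≤ G.t v' →
      ∃ u, OnB G σ ω z u ∧ G.t u ≤ G.t w ∧ Orb π (G.ub (G.lo v) τ) u) →
    ∃ σk' idx' q' ev', ∃ dt' : ℕ → V, Le σk σk' ∧ Tr G σ m0 ω z (dl K) σ1 σk' C (G.t w) idx' q' ev' dt' ∧
      (∀ i, i < q' → (∃ j, j < q ∧ ev' i = ev j) ∨ ev' i = (false, true, v)) ∧ SatB G σ ω z σk' v w := by
  intro n
  induction n with
  | zero =>
    intro v' σk T idx q ev dt hn hT hTw he hP3 hP4
    have := he.lt
    omega
  | succ n ih =>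
    intro v' σk T idx q ev dt hn hT hTw he hP3 hP4
    obtain ⟨σ2, idx2, q2, ev2, dt2, a1, a2, a3, a4, a5⟩ := one hE h hm hd hT hv hb hTw he hP3
    have hvD := hv.1.1
    have hvi := onB_inn h.inv hvD.1
    have hxi := onB_inn h.inv (lo_onB hvD)
    obtain ⟨t1, t2, t3, t4, t5, t6⟩ := tau1_spec G hvi hxi
    have hxN : G.t (G.lo v) < G.N := G.t_in _ hxi.1 hxi.2
    have hbx : G.b (G.lo v) ≤ G.t v := (al_lo G hvi).1.1
    have hyal := (al_up G he.inn).2
    have hle := he.le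
    have hlt := he.lt
    have hty := t_up G he.inn
    have hxy : G.r (G.lo v) < G.r (G.up v') := by
      have k1 := r_up G he.inn
      have k2 := r_lo G he.inn
      rw [he.lo] at k2
      omega
    have hI2 := a2.stg.inv
    obtain ⟨u, u1, u2, u3⟩ := ex_hit h hd hv he a2.stg a4
    have hfo : ∀ π, Fin' G σ2 π → ∀ y, Orb σ2.pi (G.up v') y → Orb π (G.up v') y := fun π hπ y hy =>
      orb_congr hI2.cl (fun b hb => hπ.2 b (Or.inl hb)) a4 hy
    have hfh : ∀ π, Fin' G σ2 π → ∀ τ, host G π (G.up v') τ = host G σ2.pi (G.up v') τ := fun π hπ τ =>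
      host_congr (fun b hb => hπ.2 b (Or.inl (orb_mem hI2.cl a4 hb))) τ
    by_cases hc : host G σ2.pi (G.up v') (G.tau1 v - 1) = G.lo v
    · obtain ⟨v'', b1, b2, b3, b4⟩ := host_pred hI2.ch (u := G.up v') (τ := G.tau1 v - 1) (by omega)
        (by rw [hc]; intro e; rw [e] at hxy; exact lt_irrefl _ hxy)
      rw [hc] at b2
      have c1 : G.t (G.up v') ≤ G.t v'' := orb_t hI2.ch b1
      have c2 : host G σ2.pi (G.up v') (G.t v'') = v'' := host_t hI2.ch b1 b4
      have c3 : G.r (G.lo v) ≤ G.r (host G σ2.pi (G.up v') (G.t v'')) :=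
        (order_bar hI2.ch (u := G.up v') (y := G.lo v) (τ1 := G.t v' + 1) (τ2 := G.t v'') hyal.1 (by omega)
          (by omega) (by omega) (by omega)).2.1
          (by rw [host_self hI2.ch (by omega)]; exact hxy)
      rw [c2] at c3
      have c4 : G.lo v'' = G.lo v := by
        rcases hI2.ch.2.2 v'' b4 with k | k
        · rw [← k, b2]
        · exfalso
          have k1 := r_up G b4
          rw [← k, b2] at k1
          omega
      have he2 : Ex G v v'' := ⟨b4, c4, by omega, by omega⟩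
      obtain ⟨σ3, idx3, q3, ev3, dt3, d1, d2, d3, d4⟩ := ih v'' σ2 (G.t w) idx2 q2 ev2 dt2 (by omega) a2 le_rfl he2
        (a5 v'' b1 b2) (by
          intro π hπ τ k1 k2
          rcases Nat.lt_or_ge (G.t v') τ with k3 | k3
          · refine ⟨u, u1, u2, squeeze h.inv hπ.1 (fin_path hd a2.stg.le hπ) hvD he u1 (hfo π hπ u u3) k3
              (by omega) ?_⟩
            intro e
            have k4 := (order_bar hπ.1 (u := G.up v') (y := G.lo v) (τ1 := τ) (τ2 := G.t v'')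
              (by have := hyal.1; omega) (by omega) k2 (by omega) (by omega)).2.2 e
            rw [hfh π hπ, c2] at k4
            have k5 := t_lo G b4
            rw [c4, k4] at k5
            exact lt_irrefl _ k5
          · exact hP4 π (fin_le a1 hπ) τ k1 k3)
      refine ⟨σ3, idx3, q3, ev3, dt3, ⟨a1.S.trans d1.S, a1.Dec.trans d1.Dec, fun b hb => ?_, a1.RD.trans d1.RD,
        a1.RU.trans d1.RU⟩, d2, fun i hi => ?_, d4⟩
      · rw [d1.pi b (hb.imp (fun k => a1.S k) (fun k => a1.Dec k)), a1.pi b hb]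
      · rcases d3 i hi with ⟨j, j1, j2⟩ | j
        · rcases a3 j j1 with ⟨l, l1, l2⟩ | l
          · exact Or.inl ⟨l, l1, j2.trans l2⟩
          · exact Or.inr (j2.trans l)
        · exact Or.inr j
    · refine ⟨σ2, idx2, q2, ev2, dt2, a1, a2, a3, ?_⟩
      intro π hπ τ k1 k2
      rcases Nat.lt_or_ge (G.t v') τ with k3 | k3
      · refine ⟨u, u1, u2, squeeze h.inv hπ.1 (fin_path hd a2.stg.le hπ) hvD he u1 (hfo π hπ u u3) k3 k2 ?_⟩
        intro e
        have k4 := (order_bar hπ.1 (u := G.up v') (y := G.lo v) (τ1 := τ) (τ2 := G.tau1 v - 1)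
          (by have := hyal.1; omega) (by omega) (by omega) (by omega) (by omega)).2.2 e
        rw [hfh π hπ] at k4
        exact hc k4
      · exact hP4 π (fin_le a1 hπ) τ k1 k3

/-- Processing a beta-event (the loop over the exposed heads). -/
theorem evB (hE : EXT G B (dl K) (m + 2 * (K + 1)) C) (h : Ctx G σ m0 ω z K Tm E)
    (hm : Set.ncard {c | m0 c ≠ none} ≤ m) (hd : Dr G σ ω z σ1) {idx : V → ℕ} {q : ℕ}
    {ev : ℕ → Bool × Bool × V} {dt : ℕ → V} (hT : Tr G σ m0 ω z (dl K) σ1 σk C T idx q ev dt)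
    {v w : V} (hv : dlB G σ m0 ω z (dl K) v w) (hb : blk B (G.t v) (G.t w)) (hTw : T ≤ G.t w)
    (hn : ∀ i, i < q → ev i ≠ (false, true, v)) :
    ∃ σk' idx' q' ev', ∃ dt' : ℕ → V, Le σk σk' ∧ Tr G σ m0 ω z (dl K) σ1 σk' C (G.t w) idx' q' ev' dt' ∧
      (∀ i, i < q' → (∃ j, j < q ∧ ev' i = ev j) ∨ ev' i = (false, true, v)) ∧ SatB G σ ω z σk' v w := by
  rcases Nat.lt_or_ge (G.t v + 1) (G.tau1 v) with h1 | h1
  · exact loop hE h hm hd hv hb _ v σk T idx q ev dt le_rfl hT hTw ⟨onB_inn h.inv hv.1.1.1, rfl, le_rfl, h1⟩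
      (fun i hi hev => absurd hev (hn i hi)) (fun π _ τ k1 k2 => by omega)
  · refine ⟨σk, idx, q, ev, dt, ⟨subset_rfl, subset_rfl, fun _ _ => rfl, subset_rfl, subset_rfl⟩,
      tr_mono hT hTw, fun i hi => Or.inl ⟨i, hi, rfl⟩, ?_⟩
    intro π _ τ k1 k2
    omega

end Pool.Agent.W_a4f561_EvB53

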