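import Pool.Agent.W_a4f561_P25.Area
import Pool.Agent.W_a4f561_h53.Lv53

/-!
MP_a4f561_co (polylog, section 3 (d)): HEADS GET IN. If the route of a head `y` under the old law meets the phase in time,
then so does its route under the new law; before that it is in the areas or on the old route. helper53.
-/

set_option autoImplicit false
set_option linter.unusedSectionVars false

namespace Pool.Agent.W_a4f561_Hd53

open Pool.Agent.W_a4f561_h26
open Pool.Agent.W_a4f561_P73
open Pool.Agent.W_a4f561_P25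
open Pool.Agent.W_a4f561_Lv53
open Pool.Agent.W_a4f561_E.Pk25 hiding Rec

variable {V : Type} {G : Bars V}

/-- `u` is above the route of `z` at its death. -/
def Abv (G : Bars V) (π : V → V) (z u : V) : Prop := G.r (host G π z (G.t u)) < G.r u

section

variable {π : V → V} (hπ : Ch G π) {z : V}

include hπ

theorem abv_iff {u : V} (hu : ¬ Orb π z u) (hN : G.t u ≤ G.N) {τ : ℕ} (hz : G.b z ≤ τ) (hal : G.al u τ) :
    Abv G π z u ↔ G.r (host G π z τ) < G.r u := by
  let _ := G.ord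
  have hU : Hp G.b G.t (fun _ => u) τ (G.t u) := Hp.const hal (G.al_t u)
  exact keep_iff G.t_inj hU (host_hp hπ hz hN) (fun s _ h2 e => by
    apply hu
    rw [← e]
    exact host_orb25 hπ z (h2.trans hN)) hal.2 le_rfl le_rfl hal.2

theorem abv_step {ρ : V → V} (hρ : Ch G ρ) {u : V} (hi : G.inn u) (hz : G.b z ≤ G.t u) (h : Abv G π z u)
    (hO : ¬ Orb π z (ρ u)) (hN : G.t (ρ u) ≤ G.N) : Abv G π z (ρ u) := by
  let _ := G.ord
  have htN : G.t u ≤ G.N := (hρ.t_lt hi).le.trans hN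
  rw [abv_iff hπ hO hN hz ⟨hρ.b_le hi, (hρ.t_lt hi).le⟩]
  have hal := host_al25 hπ htN hz
  rcases hρ.2.2 u hi with h4 | h4
  · have h5 := G.up_lo hi
    rw [← h4] at h5
    refine lt_of_le_of_ne ?_ ?_
    · by_contra hcon
      rw [not_le] at hcon
      exact h5.no _ hal hcon h
    · intro e
      apply hO
      rw [← G.r_inj e]
      exact host_orb25 hπ z htN
  · have h5 := (G.up_up hi).lt
    rw [← h4] at h5
    exact lt_trans h h5

variable {tl : ℕ} (hN : tl ≤ G.N)

include hN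

theorem ard_abv {u : V} (h : ArD G π z tl u) : Abv G π z u := by
  obtain ⟨y, a, c, h⟩ := h
  exact ((h.p0 hπ hN).2.2.2 _ (G.al_t u)).1

/-- A vertex above the phase is not in an area below it. -/
theorem abv_not {u : V} (h : Abv G π z u) : ¬ ArD G.mir π z tl u := by
  rintro ⟨y, a, c, h'⟩
  have h1 := ((h'.p0 (G := G.mir) hπ.mir25 hN).2.2.2 _ (G.al_t u)).1
  have h2 : G.r u < G.r (host G π z (G.t u)) := G.mir_lt.1 h1
  exact lt_asymm h h2

/-- A head of a vertex of the phase is above the phase. -/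
theorem head_abv {x y : V} {τ : ℕ} (hx : host G π z τ = x) (hxy : G.r x < G.r y) (hal : G.al y τ) (hz : G.b z ≤ τ)
    (hyN : G.t y ≤ G.N) (hy : ¬ Orb π z y) : Abv G π z y := by
  rw [abv_iff hπ hy hyN hz hal, hx]
  exact hxy

/-- The new route inside an area. -/
theorem area_run {ρ' : V → V} (hρ' : Ch G ρ') {y0 : V} {a c : ℕ} (hbar : ∀ u, Ar G π z tl y0 a c u → ρ' u ≠ y0) :
    ∀ (n : ℕ) (u : V), G.N - G.t u ≤ n → Ar G π z tl y0 a c u →
      ∃ v', Orb ρ' u v' ∧ Orb π z v' ∧ (∃ p, Ar G π z tl y0 a c p ∧ Orb ρ' u p ∧ ρ' p = v') ∧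
        ∀ w, Orb ρ' u w → G.t w < G.t v' → Ar G π z tl y0 a c w := by
  intro n
  induction n with
  | zero =>
    intro u hn hu
    have h1 := (hu.p0 hπ hN).2.2.1
    have h2 := hu.2.2.1.2.1
    omega
  | succ n ih =>
    intro u hn hu
    have h1 := (hu.p0 hπ hN).2.2.1
    have h2 := hu.2.2.1.2.1
    have hi : G.inn u := G.inn_of_t h1 (h2.trans hN)
    have h3 := hρ'.t_lt hi
    have hsp : ∀ w, Orb ρ' u w → w = u ∨ Orb ρ' (ρ' u) w := by
      rintro w ⟨k, rfl⟩
      cases k with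
      | zero => exact Or.inl rfl
      | succ k => exact Or.inr ⟨k, rfl⟩
    rcases hu.fwd hπ hN hρ' (hbar u hu) with h4 | ⟨h4, -⟩
    · obtain ⟨v', k1, k2, ⟨p, p1, p2, p3⟩, k3⟩ := ih (ρ' u) (by omega) h4
      refine ⟨v', Orb.trans (Orb.step (Orb.refl ρ' u)) k1, k2, ⟨p, p1, Orb.trans (Orb.step (Orb.refl ρ' u)) p2, p3⟩,
        fun w hw hwt => ?_⟩
      rcases hsp w hw with h5 | h5
      · rw [h5]
        exact hu
      · exact k3 w h5 hwt
    · refine ⟨ρ' u, Orb.step (Orb.refl ρ' u), h4, ⟨u, hu, Orb.refl ρ' u, rfl⟩, fun w hw hwt => ?_⟩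
      rcases hsp w hw with h5 | h5
      · rw [h5]
        exact hu
      · have h6 := Orb.t_le hρ' h5
        omega

/-- A head in an area: its new route meets the phase not later than the old one, and is in the area before. -/
theorem area_in {ρ ρ' : V → V} (hρ : Ch G ρ) (hρ' : Ch G ρ')
    (hlow : ∀ u, ArD G π z tl u → G.r (ρ' u) ≤ G.r (ρ u))
    (hbar : ∀ y a c u, Ar G π z tl y a c u → ρ' u ≠ y) {y v : V} (hy : ArD G π z tl y) (hv : Orb ρ y v)
    (hv' : Orb π z v) (hvN : G.t v ≤ G.N) :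
    ∃ v', Orb ρ' y v' ∧ Orb π z v' ∧ G.t v' ≤ G.t v ∧ ∀ w, Orb ρ' y w → G.t w < G.t v' → ArD G π z tl w := by
  let _ := G.ord
  obtain ⟨y0, a, c, hy'⟩ := hy
  obtain ⟨v', k1, k2, ⟨p, p1, p2, p3⟩, k3⟩ := area_run hπ hN hρ' (hbar y0 a c) _ y le_rfl hy'
  refine ⟨v', k1, k2, ?_, fun w hw hwt => ⟨y0, a, c, k3 w hw hwt⟩⟩
  by_contra hcon
  rw [not_le] at hcon
  have hbz : ∀ u, Ar G π z tl y0 a c u → G.b z ≤ G.b u := fun u hu =>
    (G.bt z).trans (hu.2.1.1.le.trans (hu.p0 hπ hN).2.1.le)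
  have hyv : G.t y ≤ G.t v := Orb.t_le hρ hv
  have hby : G.b y ≤ G.t v := (G.bt y).trans hyv
  have hzv : G.b z ≤ G.t v := (hbz y hy').trans hby
  obtain ⟨k, e1, e2, e3⟩ := host_exists hρ' y hvN
  set w := host G ρ' y (G.t v) with hw
  have hwv : Orb ρ' w v' := by
    obtain ⟨m, hm⟩ := k1
    rcases Nat.lt_or_ge m k with h1 | h1
    · have h2 := e2 m h1
      rw [hm] at h2
      omega
    · refine ⟨m - k, ?_⟩
      rw [e1, ← Function.iterate_add_apply, Nat.sub_add_cancel h1, hm]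
  have hwt : G.t w ≤ G.t v' := Orb.t_le hρ' hwv
  have hwy : Orb ρ' y w := ⟨k, e1.symm⟩
  have halw : G.al w (G.t v) := host_al25 hρ' hvN hby
  have hmono : G.r w ≤ G.r v := by
    have h1 := host_mono hρ hρ' (y := y) (T := G.t v) (fun u hu hut _ =>
      hlow u ⟨y0, a, c, k3 u hu (hut.trans hcon)⟩) hby le_rfl hvN
    rwa [host_of_orb hρ hv rfl hvN] at h1
  have hBv : host G π z (G.t v) = v := host_of_orb hπ hv' rfl hvN
  rcases hwt.lt_or_eq with h1 | h1
  · have h2 := ((k3 w hwy h1).p0 hπ hN).2.2.2 _ halw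
    rw [hBv] at h2
    exact absurd h2.1 (not_lt.2 hmono)
  · have hwv' : w = v' := G.t_inj h1
    have hpv' : G.t p < G.t v' := by
      rw [← p3]
      have h2 := (p1.p0 hπ hN).2.2.1
      exact hρ'.t_lt (G.inn_of_t h2 (p1.2.2.1.2.1.trans hN))
    have hpt : G.t p < G.t v := by
      obtain ⟨j, hj⟩ := p2
      rcases Nat.lt_or_ge j k with h2 | h2
      · have h3 := e2 j h2
        rwa [hj] at h3
      · exfalso
        have h3 : Orb ρ' w p := by
          refine ⟨j - k, ?_⟩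
          rw [e1, ← Function.iterate_add_apply, Nat.sub_add_cancel h2, hj]
        have h4 := Orb.t_le hρ' h3
        omega
    have hpi : G.inn p := G.inn_of_t (p1.p0 hπ hN).2.2.1 (p1.2.2.1.2.1.trans hN)
    have hpN : G.t p ≤ G.N := hpt.le.trans hvN
    have hzp : G.b z ≤ G.t p := (hbz p p1).trans (G.bt p)
    have hBal := host_al25 hπ hpN hzp
    have hlt : G.r (host G π z (G.t p)) < G.r p := ((p1.p0 hπ hN).2.2.2 _ (G.al_t p)).1
    have hle : G.r (host G π z (G.t p)) ≤ G.r v' := by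
      rcases hρ'.2.2 p hpi with h4 | h4
      · have h5 := G.up_lo hpi
        rw [← h4, p3] at h5
        by_contra hc
        rw [not_le] at hc
        exact h5.no _ hBal hc hlt
      · have h5 := (G.up_up hpi).lt
        rw [← h4, p3] at h5
        exact (hlt.trans h5).le
    have hnm : ∀ s, G.t p ≤ s → s ≤ G.t v → host G π z s ≠ v' := by
      intro s h2 h3 h4
      have h5 := host_host hπ (u := z) h3 hvN
      rw [h4, hBv] at h5
      have h6 : Orb π v' v := by
        rw [← h5]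
        exact host_orb25 hπ v' hvN
      have h7 := Orb.t_le hπ h6
      omega
    have hU : Hp G.b G.t (fun _ => v') (G.t p) (G.t v) := by
      refine Hp.const ⟨?_, hpv'.le⟩ ⟨?_, hcon.le⟩
      · rw [← p3]
        exact hρ'.b_le hpi
      · rw [← hwv']
        exact halw.1
    have h8 : G.r (host G π z (G.t p)) < G.r v' :=
      lt_of_le_of_ne hle fun e => hnm _ le_rfl hpt.le (G.r_inj e)
    have h9 := keep_lt G.t_inj hU (host_hp hπ hzp hvN) hnm h8 (G.t v) hpt.le le_rfl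
    have h10 : G.r v < G.r v' := by
      rw [hBv] at h9
      exact h9
    rw [← hwv'] at h10
    exact absurd h10 (not_lt.2 hmono)

/-- A route which is in `D'` or a success up to a success leaves `D'` in `E'`. -/
theorem lv_of {ρ' : V → V} (hρ' : Ch G ρ') {D' E' : Set V} {y v' : V} (h : Orb ρ' y v') (hv' : v' ∈ E' ∧ v' ∉ D')
    (hw : ∀ w, Orb ρ' y w → G.t w < G.t v' → w ∈ D' ∨ w ∉ D' ∧ w ∈ E') : LV G D' E' ρ' y := by
  obtain ⟨k, hk⟩ := h
  induction k generalizing y with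
  | zero =>
    have e : y = v' := hk
    rw [e]
    exact (lv_out hρ' hv'.2).2 hv'.1
  | succ k ih =>
    by_cases h0 : y ∈ D'
    · rw [lv_in hρ' h0]
      refine ih (fun w h1 h2 => hw w ?_ h2) hk
      exact Orb.trans (Orb.step (Orb.refl ρ' y)) h1
    · rcases (Orb.t_le hρ' ⟨k + 1, hk⟩ : G.t y ≤ G.t v').lt_or_eq with h1 | h1
      · rcases hw y (Orb.refl ρ' y) h1 with h2 | ⟨h2, h3⟩
        · exact absurd h2 h0
        · exact (lv_out hρ' h2).2 h3
      · rw [G.t_inj h1]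
        exact (lv_out hρ' hv'.2).2 hv'.1

/-- HEADS GET IN. `D` = the old cell without the phase, `D'` = the cell now, `E'` = the part of the phase up to `td` and the
new labels. -/
theorem heads_in {ρ ρ' : V → V} (hρ : Ch G ρ) (hρ' : Ch G ρ') {D D' E' : Set V} {td : ℕ} (htd : td ≤ tl)
    (hDi : ∀ u ∈ D, G.inn u ∧ (G.t u ≤ td → ¬ Orb π z u))
    (hag : ∀ u ∈ D, ¬ Orb π z u → G.t u ≤ td → ¬ Area G π z tl u → ρ' u = ρ u)
    (hlow : ∀ u, ArD G π z tl u → G.r (ρ' u) ≤ G.r (ρ u))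
    (hbar : ∀ y a c u, Ar G π z tl y a c u → ρ' u ≠ y)
    (hA : ∀ u, ArD G π z tl u ∨ u ∈ D ∧ ¬ Orb π z u → Abv G π z u → G.t u ≤ td → u ∈ D' ∨ u ∉ D' ∧ u ∈ E')
    (hB : ∀ v, Orb π z v → G.t v ≤ td → v ∈ E' ∧ v ∉ D')
    {y : V} (hyz : G.b z ≤ G.t y) (hy : G.t y ≤ td → Abv G π z y) (hyO : G.t y ≤ td → ¬ Orb π z y)
    (h : LV G D {v | Orb π z v ∧ G.t v ≤ td} ρ y) : LV G D' E' ρ' y := by
  have hyt : G.t y ≤ td := by
    obtain ⟨e, he1, he2, he3, he4⟩ := h
    exact (Orb.t_le hρ he3).trans he1.2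
  by_cases hyA : ArD G π z tl y
  · obtain ⟨v, ⟨hv1, hv2⟩, -, hv3, -⟩ := h
    obtain ⟨v', k1, k2, k3, k4⟩ := area_in hπ hN hρ hρ' hlow hbar hyA hv3 hv1 (hv2.trans (htd.trans hN))
    refine lv_of hπ hN hρ' k1 (hB v' k2 (k3.trans hv2)) fun w hw hwt => ?_
    exact hA w (Or.inl (k4 w hw hwt)) (ard_abv hπ hN (k4 w hw hwt)) (hwt.le.trans (k3.trans hv2))
  · have key := lv_ind hρ (D := D) (E := {v | Orb π z v ∧ G.t v ≤ td})
      (P := fun u => LV G D {v | Orb π z v ∧ G.t v ≤ td} ρ u → ¬ Orb π z u → ¬ ArD G π z tl u → Abv G π z u →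
        G.b z ≤ G.t u → LV G D' E' ρ' u)
      (fun e he _ _ hO _ _ _ => absurd he.1 hO) (fun u hu hlv ih hlu hO hnA hab hz => by
        have hi := (hDi u hu).1
        have htu : G.t u ≤ td := by
          obtain ⟨e, he1, he2, he3, he4⟩ := hlu
          exact (Orb.t_le hρ he3).trans he1.2
        rcases hA u (Or.inr ⟨hu, hO⟩) hab htu with h1 | ⟨h1, h2⟩
        · rw [lv_in hρ' h1]
          have hnAr : ¬ Area G π z tl u := by
            rintro (h2 | h2)
            · exact hnA h2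
            · exact abv_not hπ hN hab h2
          rw [hag u hu hO htu hnAr]
          have htd' : G.t (ρ u) ≤ td := by
            obtain ⟨e, he1, he2, he3, he4⟩ := hlv
            exact (Orb.t_le hρ he3).trans he1.2
          have htN : G.t (ρ u) ≤ G.N := htd'.trans (htd.trans hN)
          by_cases hO' : Orb π z (ρ u)
          · by_cases hD : ρ u ∈ D
            · exact absurd hO' ((hDi _ hD).2 htd')
            · have h3 : ρ u ∈ {v | Orb π z v ∧ G.t v ≤ td} := (lv_out hρ hD).1 hlv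
              obtain ⟨h4, h5⟩ := hB _ h3.1 h3.2
              exact (lv_out hρ' h5).2 h4
          · refine ih hlv hO' ?_ (abv_step hπ hρ hi hz hab hO' htN) (hz.trans (hρ.t_lt hi).le)
            rintro ⟨y0, a, c, h3⟩
            exact hnA ⟨y0, a, c, h3.back hπ hN hρ hi hO rfl⟩
        · exact (lv_out hρ' h1).2 h2) h
    exact key h (hyO hyt) hyA (hy hyt) hyz

end

end Pool.Agent.W_a4f561_Hd53
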