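import Pool.Agent.W_a4f561_P25.CoupW
import Pool.Agent.W_a4f561_h53.I153

/-!
MP_a4f561_co (polylog, section 4): (I1) for the state `sg` of helper25 after the declarations of one phase and the relabelling
of its areas; the law after a draw. helper53.
-/

set_option autoImplicit false
set_option linter.unusedSectionVars false

namespace Pool.Agent.W_a4f561_I153

open Pool.Agent.W_a4f561_h26
open Pool.Agent.W_a4f561_P73
open Pool.Agent.W_a4f561_P25
open Pool.Agent.W_a4f561_P25.W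
open Pool.Agent.W_a4f561_Lv53
open Pool.Agent.W_a4f561_Hd53

variable {V : Type} {G : Bars V} {σ σ0 : St V} {z0 : V} {tl : ℕ} {c0 : V}

/-- The law after a draw agrees with the old law outside of the new `S`. -/
theorem law_draw (hS : σ0.S ⊆ σ.S) (hD : ∀ u, u ∉ σ.S → (u ∈ σ.Dec ↔ u ∈ σ0.Dec))
    (hpi : ∀ u, u ∉ σ.S → u ∈ σ0.Dec → σ.pi u = σ0.pi u) (ω : V × Bool → Bool) {u : V} (hu : u ∉ σ.S) :
    law G σ ω u = law G σ0 ω u := by
  have hu0 : u ∉ σ0.S := fun h => hu (hS h)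
  unfold law
  by_cases h : u ∈ σ0.Dec
  · rw [if_pos (show u ∈ σ.S ∪ σ.Dec from Or.inr ((hD u hu).2 h)), if_pos (show u ∈ σ0.S ∪ σ0.Dec from Or.inr h)]
    exact hpi u hu h
  · have e1 : u ∉ σ.S ∪ σ.Dec := by
      rintro (h1 | h1)
      · exact hu h1
      · exact h ((hD u hu).1 h1)
    have e2 : u ∉ σ0.S ∪ σ0.Dec := by
      rintro (h1 | h1)
      · exact hu0 h1
      · exact h h1
    rw [if_neg e1, if_neg e2]

/-- In an area the new law stays in the areas till it is on the phase. -/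
theorem stay_sg (h : Phs G σ z0 tl c0) (ω : V × Bool → Bool) {u : V} (hu : Area G σ.pi z0 tl u) :
    Area G σ.pi z0 tl (law G (sg G σ z0 tl) ω u) ∨
      Orb σ.pi z0 (law G (sg G σ z0 tl) ω u) ∧ G.t (law G (sg G σ z0 tl) ω u) ≤ tl := by
  have hf := law_fin (sg_inv h) ω
  have hf' : Fin' G.mir (sg G.mir σ.mir z0 tl) (law G (sg G σ z0 tl) ω) := by
    rw [sg_mir h]
    exact ⟨hf.1.mir25, hf.2⟩
  refine stay h.inv.ch h.hN (l := host G σ.pi z0 tl) (host_orb25 h.inv.ch z0 h.hN) h.last hf.1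
    (fun y a c w hw => no_bar h hf hw) (fun y a c w hw => no_bar (G := G.mir) (σ := σ.mir) h.mir hf' hw) hu

section pr

variable [Fintype V] [DecidableEq V]

/-- (I1) for `sg` and the relabelled cells. -/
theorem i1_sg (h : Phs G σ z0 tl c0) {cell cell' : V → ℕ} {i : ℕ} {Q : ℕ → ℕ → Prop} {bd : ℕ → Set V} {κ : ℕ → ℝ}
    (hκ : ∀ k, κ k ≤ 1) (hQ : ∀ k, Q k k)
    (hcA : ∀ u, Area G σ.pi z0 tl u → cell' u = i) (hcn : ∀ u, ¬ Area G σ.pi z0 tl u → cell' u = cell u)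
    (hB : ∀ v, Orb σ.pi z0 v → G.t v ≤ tl → cell' v = i)
    (h1 : ∀ z, z ∉ σ.S → κ (cell z) ≤ pr (fun _ => none)
      (fun ω => LV G (Dk σ.S cell (cell z)) (Ek Q bd cell (cell z)) (law G σ ω) z))
    (z : V) (hz : z ∉ (sg G σ z0 tl).S) :
    κ (cell' z) ≤ pr (fun _ => none)
      (fun ω => LV G (Dk (sg G σ z0 tl).S cell' (cell' z)) (Ek Q bd cell' (cell' z)) (law G (sg G σ z0 tl) ω) z) :=
  i1_relabel h.inv.ch h.hN (fun ω => law_ch h.inv ω) (fun ω => law_ch (sg_inv h) ω) hκ hQ (fun _ hu => hu)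
    ⟨h.inv.bot_mem, h.inv.top_mem⟩ (fun _ h1 h2 => h.mem h1 h2) hcA hcn hB (fun u hu hS => h.nou u hS hu)
    (fun ω _ hu => stay_sg h ω hu) (fun ω _ _ hu => law_sg_area h ω hu) h1 z hz

end pr

end Pool.Agent.W_a4f561_I153
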